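import Pool.Agent.Lib.MP_bd2ea4_al.Check

/-!
# Relators in a two-generator group of exponent seven

`bb a x i` is the conjugate of `x` by `a ^ i`, `el a x` the value of a letter, `pp a x m` the
product of two consecutive conjugates.
-/

set_option autoImplicit false

namespace BD7

section

variable {G : Type*} [Group G] (a x : G)

/-- the conjugates of `x` by the powers of `a` -/
def bb (i : ℕ) : G := (a ^ i)⁻¹ * x * a ^ i

/-- the value of a letter -/
def el (c : ℕ) : G := if c % 2 = 0 then bb a x (c / 2) else (bb a x (c / 2))⁻¹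

/-- the product of two consecutive conjugates -/
def pp (m : ℕ) : G := bb a x m * bb a x (m + 1)

theorem bb_zero : bb a x 0 = x := by simp [bb]

theorem bb_add (i s : ℕ) : bb a x (i + s) = (a ^ s)⁻¹ * bb a x i * a ^ s := by
  unfold bb
  rw [pow_add]
  group

theorem bb_pow (i n : ℕ) : bb a x i ^ n = bb a (x ^ n) i := by
  unfold bb
  induction n with
  | zero => simp
  | succ n ih =>
    rw [pow_succ, ih, pow_succ]
    group

variable {a}

theorem bb_mod (ha : a ^ 7 = 1) (i : ℕ) : bb a x (i % 7) = bb a x i := by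
  have h : a ^ i = a ^ (i % 7) := by
    conv_lhs => rw [← Nat.mod_add_div i 7, pow_add, pow_mul, ha, one_pow, mul_one]
  unfold bb
  rw [h]

theorem bb_seven (ha : a ^ 7 = 1) (i : ℕ) : bb a x (i + 7) = bb a x i := by
  rw [← bb_mod x ha (i + 7), Nat.add_mod_right, bb_mod x ha]

variable (a)

theorem el_even (i : ℕ) : el a x (2 * i) = bb a x i := by
  unfold el
  rw [if_pos (by omega), Nat.mul_div_cancel_left _ (by norm_num)]

theorem el_odd (i : ℕ) : el a x (2 * i + 1) = (bb a x i)⁻¹ := by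
  unfold el
  rw [if_neg (by omega)]
  congr 2
  omega

theorem el_iv (c : ℕ) : el a x (iv c) = (el a x c)⁻¹ := by
  unfold iv
  rcases Nat.even_or_odd' c with ⟨i, rfl | rfl⟩
  · have h : Nat.beq (2 * i % 2) 0 = true := by
      rw [Nat.mul_mod_right]; rfl
    rw [h]
    change el a x (2 * i + 1) = _
    rw [el_odd, el_even]
  · have h : Nat.beq ((2 * i + 1) % 2) 0 = false := by
      have : (2 * i + 1) % 2 = 1 := by omega
      rw [this]; rfl
    rw [h]
    change el a x (2 * i + 1 - 1) = _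
    rw [Nat.add_sub_cancel, el_odd, el_even, inv_inv]

variable {a}

theorem el_sh (ha : a ^ 7 = 1) (c s : ℕ) :
    el a x ((c + 2 * s) % 14) = (a ^ s)⁻¹ * el a x c * a ^ s := by
  rcases Nat.even_or_odd' c with ⟨i, rfl | rfl⟩
  · have h : (2 * i + 2 * s) % 14 = 2 * ((i + s) % 7) := by omega
    rw [h, el_even, el_even, bb_mod x ha, bb_add]
  · have h : (2 * i + 1 + 2 * s) % 14 = 2 * ((i + s) % 7) + 1 := by omega
    rw [h, el_odd, el_odd, bb_mod x ha, bb_add]
    group

theorem ev_sh (ha : a ^ 7 = 1) (s : ℕ) (w : List ℕ) :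
    ev (el a x) (sh s w) = (a ^ s)⁻¹ * ev (el a x) w * a ^ s := by
  unfold sh
  induction w with
  | nil => simp [ev]
  | cons c w ih =>
    rw [List.map_cons, ev, ev, ih, el_sh x ha]
    group

theorem ev_sh_one (ha : a ^ 7 = 1) {w : List ℕ} (hw : ev (el a x) w = 1) (s : ℕ) :
    ev (el a x) (sh s w) = 1 := by
  rw [ev_sh x ha, hw, mul_one, inv_mul_cancel]

/-- the word `b_0^e b_j^e ... b_{(n-1) j}^e` -/
def stepw (e j : ℕ) : ℕ → List ℕ
  | 0 => []
  | n + 1 => stepw e j n ++ List.replicate e (2 * (n * j % 7))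

theorem ev_replicate {e' : ℕ → G} (n c : ℕ) : ev e' (List.replicate n c) = e' c ^ n := by
  induction n with
  | zero => rw [pow_zero, List.replicate_zero, ev]
  | succ n ih => rw [List.replicate_succ, ev, ih, pow_succ']

theorem ev_stepw (ha : a ^ 7 = 1) (e j n : ℕ) :
    ev (el a x) (stepw e j n) = (x ^ e * (a ^ j)⁻¹) ^ n * (a ^ j) ^ n := by
  induction n with
  | zero => simp [stepw, ev]
  | succ n ih =>
    rw [stepw, ev_append, ih, ev_replicate, el_even, bb_mod x ha, bb_pow, bb, pow_succ, pow_succ,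
      mul_comm n j, pow_mul]
    group

/-- the relators: `[b_0, b_1]`, `b_0 ^ 7`, a special one, the words `b_0^e b_j^e ... b_{6j}^e` -/
def Rl (sp : List ℕ) : List (List ℕ) :=
  [[1, 3, 0, 2], [0, 0, 0, 0, 0, 0, 0], sp,
    [0, 2, 4, 6, 8, 10, 12], [0, 4, 8, 12, 2, 6, 10], [0, 6, 12, 4, 10, 2, 8],
    [0, 0, 2, 2, 4, 4, 6, 6, 8, 8, 10, 10, 12, 12], [0, 0, 4, 4, 8, 8, 12, 12, 2, 2, 6, 6, 10, 10],
    [0, 0, 6, 6, 12, 12, 4, 4, 10, 10, 2, 2, 8, 8],
    [0, 0, 0, 2, 2, 2, 4, 4, 4, 6, 6, 6, 8, 8, 8, 10, 10, 10, 12, 12, 12],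
    [0, 0, 0, 4, 4, 4, 8, 8, 8, 12, 12, 12, 2, 2, 2, 6, 6, 6, 10, 10, 10],
    [0, 0, 0, 6, 6, 6, 12, 12, 12, 4, 4, 4, 10, 10, 10, 2, 2, 2, 8, 8, 8]]

theorem Rl_eq (sp : List ℕ) : Rl sp = [[1, 3, 0, 2], [0, 0, 0, 0, 0, 0, 0], sp,
    stepw 1 1 7, stepw 1 2 7, stepw 1 3 7, stepw 2 1 7, stepw 2 2 7, stepw 2 3 7,
    stepw 3 1 7, stepw 3 2 7, stepw 3 3 7] := rfl

theorem Rl_one (h7 : ∀ g : G, g ^ 7 = 1) (hc : Commute (bb a x 0) (bb a x 1)) {sp : List ℕ}
    (hsp : ev (el a x) sp = 1) : ∀ r ∈ Rl sp, ∀ s, ev (el a x) (sh s r) = 1 := by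
  have hst : ∀ e j, ev (el a x) (stepw e j 7) = 1 := by
    intro e j
    rw [ev_stepw x (h7 a), h7, h7, one_mul]
  intro r hr s
  apply ev_sh_one x (h7 a)
  rw [Rl_eq] at hr
  simp only [List.mem_cons, List.not_mem_nil, or_false] at hr
  rcases hr with h | h | h | h | h | h | h | h | h | h | h | h
  · rw [h]
    have e0 : el a x 0 = bb a x 0 := el_even a x 0
    have e1 : el a x 1 = (bb a x 0)⁻¹ := el_odd a x 0
    have e2 : el a x 2 = bb a x 1 := el_even a x 1
    have e3 : el a x 3 = (bb a x 1)⁻¹ := el_odd a x 1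
    simp only [ev, e0, e1, e2, e3]
    rw [mul_one, hc.eq]
    group
  · rw [h]
    have : ([0, 0, 0, 0, 0, 0, 0] : List ℕ) = List.replicate 7 0 := rfl
    rw [this, ev_replicate, h7]
  · rw [h]; exact hsp
  all_goals rw [h]; exact hst _ _

/-- a certificate proves that `b_2` commutes with `b_0` -/
theorem comm_of_check (h7 : ∀ g : G, g ^ 7 = 1) (hc : Commute (bb a x 0) (bb a x 1))
    {sp : List ℕ} (hsp : ev (el a x) sp = 1) {nD D nL L : ℕ}
    (h : check (Rl sp) [0, 2, 12] nD D nL L [4] = true) : Commute (bb a x 0) (bb a x 2) := by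
  have e0 : el a x 0 = bb a x 0 := el_even a x 0
  have e2 : el a x 2 = bb a x 1 := el_even a x 1
  have e4 : el a x 4 = bb a x 2 := el_even a x 2
  have e12 : el a x 12 = bb a x 6 := el_even a x 6
  have h6 : Commute (bb a x 0) (bb a x 6) := by
    have h7' : bb a x 7 = bb a x 0 := by
      have := bb_seven x (h7 a) 0
      rwa [zero_add] at this
    have h8 : Commute (bb a x 6) (bb a x 7) := by
      have e6 : bb a x 6 = (a ^ 6)⁻¹ * bb a x 0 * a ^ 6 := bb_add a x 0 6
      have e7 : bb a x 7 = (a ^ 6)⁻¹ * bb a x 1 * a ^ 6 := bb_add a x 1 6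
      rw [e6, e7]
      unfold Commute SemiconjBy
      have := hc.eq
      calc (a ^ 6)⁻¹ * bb a x 0 * a ^ 6 * ((a ^ 6)⁻¹ * bb a x 1 * a ^ 6)
          = (a ^ 6)⁻¹ * (bb a x 0 * bb a x 1) * a ^ 6 := by group
        _ = (a ^ 6)⁻¹ * (bb a x 1 * bb a x 0) * a ^ 6 := by rw [this]
        _ = _ := by group
    rw [h7'] at h8
    exact h8.symm
  have hm : ∀ y : G, y ∈ Subgroup.centralizer {bb a x 0} ↔ Commute (bb a x 0) y := by
    intro y
    rw [Subgroup.mem_centralizer_singleton_iff]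
    constructor
    · intro h; exact h.symm
    · intro h; exact h.symm
  have := check_sound (H := Subgroup.centralizer {bb a x 0}) (e := el a x) (el_iv a x)
    (Rl_one x h7 hc hsp) (Hs := [0, 2, 12]) (by
      intro c hc'
      simp only [List.mem_cons, List.not_mem_nil, or_false] at hc'
      rcases hc' with rfl | rfl | rfl
      · rw [hm, e0]
      · rw [hm, e2]; exact hc
      · rw [hm, e12]; exact h6) h
  simp only [ev, mul_one, e4] at this
  exact (hm _).1 this

/-- a certificate proves that the value of `t` is one -/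
theorem one_of_check (h7 : ∀ g : G, g ^ 7 = 1) (hc : Commute (bb a x 0) (bb a x 1))
    {sp : List ℕ} (hsp : ev (el a x) sp = 1) {nD D nL L : ℕ} {t : List ℕ}
    (h : check (Rl sp) [] nD D nL L t = true) : ev (el a x) t = 1 := by
  have := check_sound (H := (⊥ : Subgroup G)) (e := el a x) (el_iv a x)
    (Rl_one x h7 hc hsp) (Hs := []) (by simp) h
  exact Subgroup.mem_bot.1 this

/-- the value of the commutator word of `b_0` and `b_i` -/
theorem ev_comm (i : ℕ) (t : List ℕ) (ht : t = [1, 2 * i + 1, 0, 2 * i]) :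
    ev (el a x) t = 1 ↔ Commute (bb a x 0) (bb a x i) := by
  have e0 : el a x 0 = bb a x 0 := el_even a x 0
  have e1 : el a x 1 = (bb a x 0)⁻¹ := el_odd a x 0
  rw [ht]
  simp only [ev, e0, e1, el_even, el_odd, mul_one]
  constructor
  · intro h
    have h1 : (bb a x i * bb a x 0)⁻¹ * (bb a x 0 * bb a x i) = 1 := by
      rw [← h]; group
    exact (inv_mul_eq_one.1 h1).symm
  · intro h
    have h1 : (bb a x 0)⁻¹ * ((bb a x i)⁻¹ * (bb a x 0 * bb a x i)) =
      (bb a x i * bb a x 0)⁻¹ * (bb a x 0 * bb a x i) := by group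
    rw [h1, h.eq, inv_mul_cancel]

end

end BD7
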