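import Pool.Agent.Lib.MP_bd2ea4_al.Cert
import Pool.Agent.Lib.MP_bd2ea4_al.Cert33

/-!
# One relation between the products of consecutive conjugates makes all conjugates commute
-/

set_option autoImplicit false

namespace BD7

section

variable {G : Type*} [Group G]

/-! ### powers -/

theorem pow_mod7 {q : G} (hq : q ^ 7 = 1) (n : ℕ) : q ^ n = q ^ (n % 7) := by
  conv_lhs => rw [← Nat.mod_add_div n 7, pow_add, pow_mul, hq, one_pow, mul_one]

theorem pow_inv7 {q : G} (hq : q ^ 7 = 1) (m n : ℕ) (h : 7 ∣ m + n) : (q⁻¹) ^ m = q ^ n := by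
  rw [inv_pow]
  apply inv_eq_of_mul_eq_one_right
  rw [← pow_add]
  obtain ⟨k, hk⟩ := h
  rw [hk, pow_mul, hq, one_pow]

/-! ### words for the products of consecutive conjugates -/

def Pw (m : ℕ) : List ℕ := [2 * (m % 7), 2 * ((m + 1) % 7)]

def Pwi (m : ℕ) : List ℕ := [2 * ((m + 1) % 7) + 1, 2 * (m % 7) + 1]

def rp7 (w : List ℕ) : ℕ → List ℕ
  | 0 => []
  | n + 1 => w ++ rp7 w n

theorem ev_rp7 (e : ℕ → G) (w : List ℕ) (n : ℕ) : ev e (rp7 w n) = ev e w ^ n := by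
  induction n with
  | zero => rw [rp7, ev, pow_zero]
  | succ n ih => rw [rp7, ev_append, ih, pow_succ']

variable {a : G} (x : G)

theorem ev_Pw (ha : a ^ 7 = 1) (m : ℕ) : ev (el a x) (Pw m) = pp a x m := by
  unfold Pw pp
  rw [ev, ev, ev, el_even, el_even, bb_mod x ha, bb_mod x ha, mul_one]

theorem ev_Pwi (ha : a ^ 7 = 1) (m : ℕ) : ev (el a x) (Pwi m) = (pp a x m)⁻¹ := by
  unfold Pwi pp
  rw [ev, ev, ev, el_odd, el_odd, bb_mod x ha, bb_mod x ha, mul_one, mul_inv_rev]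

variable (a)

theorem pp_add (m s : ℕ) : pp a x (m + s) = (a ^ s)⁻¹ * pp a x m * a ^ s := by
  have h : m + s + 1 = m + 1 + s := by omega
  unfold pp
  rw [h, bb_add, bb_add]
  group

theorem pp_eq (m : ℕ) : pp a x m = (a ^ m)⁻¹ * pp a x 0 * a ^ m := by
  have := pp_add a x 0 m
  rwa [zero_add] at this

variable {a}

theorem pp_seven (ha : a ^ 7 = 1) (m : ℕ) : pp a x (m + 7) = pp a x m := by
  rw [pp_add, ha]; simp

theorem pp_mod (ha : a ^ 7 = 1) (m : ℕ) : pp a x m = pp a x (m % 7) := by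
  rw [pp_eq a x m, pp_eq a x (m % 7), ← pow_mod7 ha]

theorem pp_congr (ha : a ^ 7 = 1) {m n : ℕ} (h : m % 7 = n % 7) : pp a x m = pp a x n := by
  rw [pp_mod x ha m, pp_mod x ha n, h]

/-- first kind of relation -/
def RRel (a x : G) (i k : ℕ) : Prop := pp a x i * pp a x k = pp a x (k + i) * pp a x 0

/-- second kind of relation -/
def XRel (a x : G) (i j : ℕ) : Prop :=
  pp a x (2 * j) * pp a x j ^ (i + 6) * pp a x 0 = pp a x j ^ (i + 1)

theorem ev_R (ha : a ^ 7 = 1) {i k : ℕ} (h : RRel a x i k) :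
    ev (el a x) (Pw i ++ Pw k ++ Pwi 0 ++ Pwi (k + i)) = 1 := by
  rw [ev_append, ev_append, ev_append, ev_Pw x ha, ev_Pw x ha, ev_Pwi x ha, ev_Pwi x ha, h]
  group

theorem ev_X (ha : a ^ 7 = 1) {i j : ℕ} (h : XRel a x i j) {w1 w2 : List ℕ}
    (h1 : ev (el a x) w1 = pp a x j ^ (i + 6)) (h2 : ev (el a x) w2 = (pp a x j ^ (i + 1))⁻¹) :
    ev (el a x) (Pw (2 * j) ++ w1 ++ Pw 0 ++ w2) = 1 := by
  rw [ev_append, ev_append, ev_append, ev_Pw x ha, ev_Pw x ha, h1, h2, h, mul_inv_cancel]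

theorem ev_pos (h7 : ∀ g : G, g ^ 7 = 1) (j m n : ℕ) (h : m % 7 = n % 7) :
    ev (el a x) (rp7 (Pw j) m) = pp a x j ^ n := by
  rw [ev_rp7, ev_Pw x (h7 a), pow_mod7 (h7 _) m, pow_mod7 (h7 _) n, h]

theorem ev_neg (h7 : ∀ g : G, g ^ 7 = 1) (j m n : ℕ) (h : 7 ∣ m + n) :
    ev (el a x) (rp7 (Pwi j) m) = pp a x j ^ n := by
  rw [ev_rp7, ev_Pwi x (h7 a), pow_inv7 (h7 _) m n h]

theorem inv_pos (h7 : ∀ g : G, g ^ 7 = 1) (j m n : ℕ) (h : 7 ∣ m + n) :
    ev (el a x) (rp7 (Pw j) m) = (pp a x j ^ n)⁻¹ := by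
  rw [ev_rp7, ev_Pw x (h7 a), ← inv_pow, pow_inv7 (h7 _) n m (by rwa [add_comm])]

theorem inv_neg (h7 : ∀ g : G, g ^ 7 = 1) (j m n : ℕ) (h : m % 7 = n % 7) :
    ev (el a x) (rp7 (Pwi j) m) = (pp a x j ^ n)⁻¹ := by
  rw [ev_rp7, ev_Pwi x (h7 a), ← inv_pow, pow_mod7 (h7 _) m, pow_mod7 (h7 _) n, h]

/-! ### the cases -/

theorem two_of_R (h7 : ∀ g : G, g ^ 7 = 1) (hc : Commute (bb a x 0) (bb a x 1)) {i k : ℕ}
    (hi : i < 7) (hk : 1 ≤ k) (hk3 : k ≤ 3) (h : RRel a x i k) :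
    Commute (bb a x 0) (bb a x 2) := by
  have hev := ev_R x (h7 a) h
  have e02 : ev (el a x) [1, 5, 0, 4] = 1 ↔ Commute (bb a x 0) (bb a x 2) := ev_comm x 2 _ rfl
  obtain rfl | rfl | rfl : k = 1 ∨ k = 2 ∨ k = 3 := by omega
  · obtain rfl | rfl | rfl | rfl | rfl | rfl | rfl :
      i = 0 ∨ i = 1 ∨ i = 2 ∨ i = 3 ∨ i = 4 ∨ i = 5 ∨ i = 6 := by omega
    · -- `p_0 p_1 = p_1 p_0`
      have h12 : Commute (bb a x 1) (bb a x 2) := by
        have e1 : bb a x 1 = (a ^ 1)⁻¹ * bb a x 0 * a ^ 1 := bb_add a x 0 1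
        have e2 : bb a x 2 = (a ^ 1)⁻¹ * bb a x 1 * a ^ 1 := bb_add a x 1 1
        have : Commute ((a ^ 1)⁻¹ * bb a x 0 * a ^ 1) ((a ^ 1)⁻¹ * bb a x 1 * a ^ 1) := by
          unfold Commute SemiconjBy
          calc (a ^ 1)⁻¹ * bb a x 0 * a ^ 1 * ((a ^ 1)⁻¹ * bb a x 1 * a ^ 1)
              = (a ^ 1)⁻¹ * (bb a x 0 * bb a x 1) * a ^ 1 := by group
            _ = (a ^ 1)⁻¹ * (bb a x 1 * bb a x 0) * a ^ 1 := by rw [hc.eq]
            _ = _ := by group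
        rwa [← e1, ← e2] at this
      unfold RRel pp at h
      have h' : bb a x 0 * bb a x 1 * (bb a x 1 * bb a x 2) =
        bb a x 1 * bb a x 2 * (bb a x 0 * bb a x 1) := h
      have h3 : bb a x 1 * bb a x 1 * (bb a x 0 * bb a x 2) =
          bb a x 1 * bb a x 1 * (bb a x 2 * bb a x 0) := by
        calc bb a x 1 * bb a x 1 * (bb a x 0 * bb a x 2)
            = bb a x 1 * (bb a x 1 * bb a x 0) * bb a x 2 := by group
          _ = bb a x 1 * (bb a x 0 * bb a x 1) * bb a x 2 := by rw [hc.eq]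
          _ = (bb a x 1 * bb a x 0) * bb a x 1 * bb a x 2 := by group
          _ = (bb a x 0 * bb a x 1) * bb a x 1 * bb a x 2 := by rw [hc.eq]
          _ = bb a x 0 * bb a x 1 * (bb a x 1 * bb a x 2) := by group
          _ = bb a x 1 * bb a x 2 * (bb a x 0 * bb a x 1) := h'
          _ = bb a x 1 * bb a x 2 * (bb a x 1 * bb a x 0) := by rw [hc.eq]
          _ = bb a x 1 * (bb a x 2 * bb a x 1) * bb a x 0 := by group
          _ = bb a x 1 * (bb a x 1 * bb a x 2) * bb a x 0 := by rw [h12.eq]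
          _ = _ := by group
      exact mul_left_cancel h3
    · exact comm_of_check x h7 hc hev t_R11
    · exact comm_of_check x h7 hc hev t_R21
    · exact comm_of_check x h7 hc hev t_R31
    · exact comm_of_check x h7 hc hev t_R41
    · exact comm_of_check x h7 hc hev t_R51
    · exact comm_of_check x h7 hc hev t_R61
  · obtain rfl | rfl | rfl | rfl | rfl | rfl | rfl :
      i = 0 ∨ i = 1 ∨ i = 2 ∨ i = 3 ∨ i = 4 ∨ i = 5 ∨ i = 6 := by omega
    · exact e02.1 (one_of_check x h7 hc hev t_R02)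
    · exact comm_of_check x h7 hc hev t_R12
    · exact comm_of_check x h7 hc hev t_R22
    · exact comm_of_check x h7 hc hev t_R32
    · exact comm_of_check x h7 hc hev t_R42
    · exact comm_of_check x h7 hc hev t_R52
    · exact comm_of_check x h7 hc hev t_R62
  · obtain rfl | rfl | rfl | rfl | rfl | rfl | rfl :
      i = 0 ∨ i = 1 ∨ i = 2 ∨ i = 3 ∨ i = 4 ∨ i = 5 ∨ i = 6 := by omega
    · exact e02.1 (one_of_check x h7 hc hev t_R03)
    · exact comm_of_check x h7 hc hev t_R13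
    · exact comm_of_check x h7 hc hev t_R23
    · exact comm_of_check x h7 hc hev t_R33
    · exact comm_of_check x h7 hc hev t_R43
    · exact comm_of_check x h7 hc hev t_R53
    · exact comm_of_check x h7 hc hev t_R63

theorem X0_ev (h7 : ∀ g : G, g ^ 7 = 1) {j : ℕ} (h : XRel a x 0 j) :
    ev (el a x) (Pw (2 * j) ++ rp7 (Pwi j) 1 ++ Pw 0 ++ rp7 (Pwi j) 1) = 1 :=
  ev_X x (h7 a) h (ev_neg x h7 j 1 6 (by norm_num)) (inv_neg x h7 j 1 1 rfl)

theorem X1_ev (h7 : ∀ g : G, g ^ 7 = 1) {j : ℕ} (h : XRel a x 1 j) :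
    ev (el a x) (Pw (2 * j) ++ rp7 (Pw j) 0 ++ Pw 0 ++ rp7 (Pwi j) 2) = 1 :=
  ev_X x (h7 a) h (ev_pos x h7 j 0 7 rfl) (inv_neg x h7 j 2 2 rfl)

theorem X2_ev (h7 : ∀ g : G, g ^ 7 = 1) {j : ℕ} (h : XRel a x 2 j) :
    ev (el a x) (Pw (2 * j) ++ rp7 (Pw j) 1 ++ Pw 0 ++ rp7 (Pwi j) 3) = 1 :=
  ev_X x (h7 a) h (ev_pos x h7 j 1 8 rfl) (inv_neg x h7 j 3 3 rfl)

theorem X3_ev (h7 : ∀ g : G, g ^ 7 = 1) {j : ℕ} (h : XRel a x 3 j) :
    ev (el a x) (Pw (2 * j) ++ rp7 (Pw j) 2 ++ Pw 0 ++ rp7 (Pw j) 3) = 1 :=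
  ev_X x (h7 a) h (ev_pos x h7 j 2 9 rfl) (inv_pos x h7 j 3 4 (by norm_num))

theorem X4_ev (h7 : ∀ g : G, g ^ 7 = 1) {j : ℕ} (h : XRel a x 4 j) :
    ev (el a x) (Pw (2 * j) ++ rp7 (Pw j) 3 ++ Pw 0 ++ rp7 (Pw j) 2) = 1 :=
  ev_X x (h7 a) h (ev_pos x h7 j 3 10 rfl) (inv_pos x h7 j 2 5 (by norm_num))

theorem X5_ev (h7 : ∀ g : G, g ^ 7 = 1) {j : ℕ} (h : XRel a x 5 j) :
    ev (el a x) (Pw (2 * j) ++ rp7 (Pwi j) 3 ++ Pw 0 ++ rp7 (Pw j) 1) = 1 :=
  ev_X x (h7 a) h (ev_neg x h7 j 3 11 (by norm_num)) (inv_pos x h7 j 1 6 (by norm_num))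

theorem X6_ev (h7 : ∀ g : G, g ^ 7 = 1) {j : ℕ} (h : XRel a x 6 j) :
    ev (el a x) (Pw (2 * j) ++ rp7 (Pwi j) 2 ++ Pw 0 ++ rp7 (Pw j) 0) = 1 :=
  ev_X x (h7 a) h (ev_neg x h7 j 2 12 (by norm_num)) (inv_pos x h7 j 0 7 (by norm_num))

theorem bb_inv (a x : G) (m : ℕ) : bb a x⁻¹ m = (bb a x m)⁻¹ := by
  unfold bb; group

theorem comm_inv_of {y : G} {i j : ℕ} (h : Commute (bb a y⁻¹ i) (bb a y⁻¹ j)) :
    Commute (bb a y i) (bb a y j) := by
  rw [bb_inv, bb_inv, Commute.inv_inv_iff] at h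
  exact h

/-- shifting commuting conjugates -/
theorem comm_shift {i j : ℕ} (h : Commute (bb a x i) (bb a x j)) (s : ℕ) :
    Commute (bb a x (i + s)) (bb a x (j + s)) := by
  rw [bb_add, bb_add]
  unfold Commute SemiconjBy
  calc (a ^ s)⁻¹ * bb a x i * a ^ s * ((a ^ s)⁻¹ * bb a x j * a ^ s)
      = (a ^ s)⁻¹ * (bb a x i * bb a x j) * a ^ s := by group
    _ = (a ^ s)⁻¹ * (bb a x j * bb a x i) * a ^ s := by rw [h.eq]
    _ = _ := by group

theorem pp_inv (hc : Commute (bb a x 0) (bb a x 1)) (m : ℕ) : pp a x⁻¹ m = (pp a x m)⁻¹ := by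
  have h : Commute (bb a x m) (bb a x (m + 1)) := by
    have := comm_shift x hc m
    rwa [zero_add, add_comm 1 m] at this
  unfold pp
  rw [bb_inv, bb_inv, mul_inv_rev, ← mul_inv_rev, ← mul_inv_rev, h.eq]

/-- replacing `x` by its inverse -/
theorem XRel_inv (h7 : ∀ g : G, g ^ 7 = 1) (hc : Commute (bb a x 0) (bb a x 1)) {i j : ℕ}
    (hi : i ≤ 7) (h : XRel a x i j) : XRel a x⁻¹ (7 - i) j := by
  unfold XRel at *
  rw [pp_inv x hc, pp_inv x hc, pp_inv x hc]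
  set q := pp a x j
  have h1 : (q⁻¹) ^ (7 - i + 6) = q ^ (i + 1) := pow_inv7 (h7 q) _ _ ⟨2, by omega⟩
  have h2 : (q⁻¹) ^ (7 - i + 1) = q ^ (i + 6) := pow_inv7 (h7 q) _ _ ⟨2, by omega⟩
  rw [h1, h2, ← h]
  group

theorem two_of_X (h7 : ∀ g : G, g ^ 7 = 1) (hc : Commute (bb a x 0) (bb a x 1)) {i j : ℕ}
    (hi : i < 7) (hj : 1 ≤ j) (hj3 : j ≤ 3) (h : XRel a x i j) :
    Commute (bb a x 0) (bb a x 2) := by
  have hc' : Commute (bb a x⁻¹ 0) (bb a x⁻¹ 1) := by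
    rw [bb_inv, bb_inv, Commute.inv_inv_iff]; exact hc
  have hn := XRel_inv x h7 hc hi.le h
  obtain rfl | rfl | rfl : j = 1 ∨ j = 2 ∨ j = 3 := by omega
  · obtain rfl | rfl | rfl | rfl | rfl | rfl | rfl :
      i = 0 ∨ i = 1 ∨ i = 2 ∨ i = 3 ∨ i = 4 ∨ i = 5 ∨ i = 6 := by omega
    · exact comm_of_check x h7 hc (X0_ev x h7 h) t_X01
    · exact comm_of_check x h7 hc (X1_ev x h7 h) t_X11
    · exact comm_of_check x h7 hc (X2_ev x h7 h) t_X21
    · exact comm_of_check x h7 hc (X3_ev x h7 h) t_X31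
    · exact comm_inv_of (comm_of_check x⁻¹ h7 hc' (X3_ev x⁻¹ h7 hn) t_X31)
    · exact comm_inv_of (comm_of_check x⁻¹ h7 hc' (X2_ev x⁻¹ h7 hn) t_X21)
    · exact comm_inv_of (comm_of_check x⁻¹ h7 hc' (X1_ev x⁻¹ h7 hn) t_X11)
  · obtain rfl | rfl | rfl | rfl | rfl | rfl | rfl :
      i = 0 ∨ i = 1 ∨ i = 2 ∨ i = 3 ∨ i = 4 ∨ i = 5 ∨ i = 6 := by omega
    · exact comm_of_check x h7 hc (X0_ev x h7 h) t_X02
    · exact comm_of_check x h7 hc (X1_ev x h7 h) t_X12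
    · exact comm_inv_of (comm_of_check x⁻¹ h7 hc' (X5_ev x⁻¹ h7 hn) t_X52)
    · exact comm_inv_of (comm_of_check x⁻¹ h7 hc' (X4_ev x⁻¹ h7 hn) t_X42)
    · exact comm_of_check x h7 hc (X4_ev x h7 h) t_X42
    · exact comm_of_check x h7 hc (X5_ev x h7 h) t_X52
    · exact comm_inv_of (comm_of_check x⁻¹ h7 hc' (X1_ev x⁻¹ h7 hn) t_X12)
  · obtain rfl | rfl | rfl | rfl | rfl | rfl | rfl :
      i = 0 ∨ i = 1 ∨ i = 2 ∨ i = 3 ∨ i = 4 ∨ i = 5 ∨ i = 6 := by omega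
    · exact comm_of_check x h7 hc (X0_ev x h7 h) t_X03
    · exact comm_inv_of (comm_of_check x⁻¹ h7 hc' (X6_ev x⁻¹ h7 hn) t_X63)
    · exact comm_inv_of (comm_of_check x⁻¹ h7 hc' (X5_ev x⁻¹ h7 hn) t_X53)
    · exact comm_of_check x h7 hc (X3_ev x h7 h) t_X33
    · exact comm_inv_of (comm_of_check x⁻¹ h7 hc' (X3_ev x⁻¹ h7 hn) t_X33)
    · exact comm_of_check x h7 hc (X5_ev x h7 h) t_X53
    · exact comm_of_check x h7 hc (X6_ev x h7 h) t_X63

/-- all conjugates commute if `b_0` commutes with `b_1` and `b_2` -/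
theorem all_of_two (h7 : ∀ g : G, g ^ 7 = 1) (hc : Commute (bb a x 0) (bb a x 1))
    (h2 : Commute (bb a x 0) (bb a x 2)) (i j : ℕ) : Commute (bb a x i) (bb a x j) := by
  have h3 : Commute (bb a x 0) (bb a x 3) := by
    have e02 : ev (el a x) [1, 5, 0, 4] = 1 := (ev_comm x 2 _ rfl).2 h2
    exact (ev_comm x 3 _ rfl).1 (one_of_check x h7 hc e02 t_L)
  have e7 : bb a x 7 = bb a x 0 := by
    have := bb_seven x (h7 a) 0
    rwa [zero_add] at this
  have key : ∀ d, d < 7 → Commute (bb a x 0) (bb a x d) := by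
    intro d hd
    obtain rfl | rfl | rfl | rfl | rfl | rfl | rfl :
      d = 0 ∨ d = 1 ∨ d = 2 ∨ d = 3 ∨ d = 4 ∨ d = 5 ∨ d = 6 := by omega
    · exact Commute.refl _
    · exact hc
    · exact h2
    · exact h3
    · have := comm_shift x h3 4
      rw [show 3 + 4 = 7 from rfl, e7] at this
      exact this.symm
    · have := comm_shift x h2 5
      rw [show 2 + 5 = 7 from rfl, e7] at this
      exact this.symm
    · have := comm_shift x hc 6
      rw [show 1 + 6 = 7 from rfl, e7] at this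
      exact this.symm
  have key2 : ∀ i j, i ≤ j → Commute (bb a x i) (bb a x j) := by
    intro i j hij
    have h := comm_shift x (key ((j - i) % 7) (Nat.mod_lt _ (by norm_num))) i
    rw [zero_add] at h
    have e : bb a x ((j - i) % 7 + i) = bb a x j := by
      rw [← bb_mod x (h7 a) ((j - i) % 7 + i), ← bb_mod x (h7 a) j]
      congr 1
      omega
    rwa [e] at h
  rcases le_total i j with h | h
  · exact key2 i j h
  · exact (key2 j i h).symm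

/-- first kind, all indices -/
theorem all_of_R (h7 : ∀ g : G, g ^ 7 = 1) (hc : Commute (bb a x 0) (bb a x 1)) {i k : ℕ}
    (hk : ¬ 7 ∣ k) (h : RRel a x i k) (m n : ℕ) : Commute (bb a x m) (bb a x n) := by
  refine all_of_two x h7 hc ?_ m n
  have ha := h7 a
  by_cases hk3 : k % 7 ≤ 3
  · refine two_of_R x h7 hc (i := i % 7) (k := k % 7) (Nat.mod_lt _ (by norm_num)) (by omega) hk3 ?_
    unfold RRel at *
    rw [pp_congr x ha (m := i % 7) (n := i) (by omega), pp_congr x ha (m := k % 7) (n := k) (by omega),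
      pp_congr x ha (m := k % 7 + i % 7) (n := k + i) (by omega)]
    exact h
  · refine two_of_R x h7 hc (i := i % 7) (k := 7 - k % 7) (Nat.mod_lt _ (by norm_num)) (by omega)
      (by omega) ?_
    unfold RRel at *
    have h' : pp a x (i + (7 - k % 7)) * pp a x (k + (7 - k % 7)) =
        pp a x (k + i + (7 - k % 7)) * pp a x (0 + (7 - k % 7)) := by
      rw [pp_add, pp_add a x k, pp_add a x (k + i), pp_add a x 0]
      calc (a ^ (7 - k % 7))⁻¹ * pp a x i * a ^ (7 - k % 7) *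
            ((a ^ (7 - k % 7))⁻¹ * pp a x k * a ^ (7 - k % 7))
          = (a ^ (7 - k % 7))⁻¹ * (pp a x i * pp a x k) * a ^ (7 - k % 7) := by group
        _ = (a ^ (7 - k % 7))⁻¹ * (pp a x (k + i) * pp a x 0) * a ^ (7 - k % 7) := by rw [h]
        _ = _ := by group
    rw [pp_congr x ha (m := i + (7 - k % 7)) (n := 7 - k % 7 + i % 7) (by omega),
      pp_congr x ha (m := k + (7 - k % 7)) (n := 0) (by omega),
      pp_congr x ha (m := k + i + (7 - k % 7)) (n := i % 7) (by omega), zero_add] at h'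
    exact h'.symm

theorem bb_inv_left (a x : G) (ha : a ^ 7 = 1) (m n : ℕ) (h : 7 ∣ m + n) :
    bb a⁻¹ x m = bb a x n := by
  unfold bb
  rw [pow_inv7 ha m n h]

theorem pp_inv_left (h7 : ∀ g : G, g ^ 7 = 1) (hc : Commute (bb a x 0) (bb a x 1)) (m n : ℕ)
    (h : 7 ∣ m + n + 1) : pp a⁻¹ x m = pp a x n := by
  have h2 : Commute (bb a x n) (bb a x (n + 1)) := by
    have := comm_shift x hc n
    rwa [zero_add, add_comm 1 n] at this
  unfold pp
  rw [bb_inv_left a x (h7 a) m (n + 1) (by rwa [← add_assoc]),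
    bb_inv_left a x (h7 a) (m + 1) n (by rwa [add_right_comm])]
  exact h2.eq.symm

/-- second kind, all indices -/
theorem all_of_X (h7 : ∀ g : G, g ^ 7 = 1) (hc : Commute (bb a x 0) (bb a x 1)) {i j : ℕ}
    (hj : ¬ 7 ∣ j) (h : XRel a x i j) (m n : ℕ) : Commute (bb a x m) (bb a x n) := by
  have ha := h7 a
  by_cases hj3 : j % 7 ≤ 3
  · refine all_of_two x h7 hc ?_ m n
    refine two_of_X x h7 hc (i := i % 7) (j := j % 7) (Nat.mod_lt _ (by norm_num)) (by omega) hj3 ?_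
    unfold XRel at *
    rw [pp_congr x ha (m := 2 * (j % 7)) (n := 2 * j) (by omega),
      pp_congr x ha (m := j % 7) (n := j) (by omega),
      pow_mod7 (h7 _) (i % 7 + 6), pow_mod7 (h7 _) (i % 7 + 1),
      show (i % 7 + 6) % 7 = (i + 6) % 7 by omega, show (i % 7 + 1) % 7 = (i + 1) % 7 by omega,
      ← pow_mod7 (h7 _) (i + 6), ← pow_mod7 (h7 _) (i + 1)]
    exact h
  · have hc' : Commute (bb a⁻¹ x 0) (bb a⁻¹ x 1) := by
      rw [bb_inv_left a x ha 0 7 (by norm_num), bb_inv_left a x ha 1 6 (by norm_num)]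
      have := comm_shift x hc 6
      rw [zero_add] at this
      exact this.symm
    have h2 : Commute (bb a⁻¹ x 0) (bb a⁻¹ x 2) := by
      refine two_of_X x h7 hc' (i := i % 7) (j := 7 - j % 7) (Nat.mod_lt _ (by norm_num)) (by omega)
        (by omega) ?_
      unfold XRel at *
      have h' : pp a x (2 * j + 6) * pp a x (j + 6) ^ (i + 6) * pp a x (0 + 6) =
          pp a x (j + 6) ^ (i + 1) := by
        rw [pp_add, pp_add a x j, pp_add a x 0]
        have e : ∀ n : ℕ, ((a ^ 6)⁻¹ * pp a x j * a ^ 6) ^ n = (a ^ 6)⁻¹ * pp a x j ^ n * a ^ 6 := by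
          intro n
          have := conj_pow (i := n) (a := (a ^ 6)⁻¹) (b := pp a x j)
          rwa [inv_inv] at this
        rw [e, e]
        calc (a ^ 6)⁻¹ * pp a x (2 * j) * a ^ 6 * ((a ^ 6)⁻¹ * pp a x j ^ (i + 6) * a ^ 6) *
              ((a ^ 6)⁻¹ * pp a x 0 * a ^ 6)
            = (a ^ 6)⁻¹ * (pp a x (2 * j) * pp a x j ^ (i + 6) * pp a x 0) * a ^ 6 := by group
          _ = (a ^ 6)⁻¹ * (pp a x j ^ (i + 1)) * a ^ 6 := by rw [h]
      rw [pp_inv_left x h7 hc (2 * (7 - j % 7)) (2 * j + 6) (by omega),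
        pp_inv_left x h7 hc (7 - j % 7) (j + 6) (by omega), pp_inv_left x h7 hc 0 6 (by norm_num),
        pow_mod7 (h7 _) (i % 7 + 6), pow_mod7 (h7 _) (i % 7 + 1),
        show (i % 7 + 6) % 7 = (i + 6) % 7 by omega, show (i % 7 + 1) % 7 = (i + 1) % 7 by omega,
        ← pow_mod7 (h7 _) (i + 6), ← pow_mod7 (h7 _) (i + 1)]
      exact h'
    have h3 := all_of_two x h7 hc' h2
    have e : ∀ m, ∃ m', bb a x m = bb a⁻¹ x m' := fun m =>
      ⟨6 * m, (bb_inv_left a x ha (6 * m) m (by omega)).symm⟩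
    obtain ⟨m', hm⟩ := e m
    obtain ⟨n', hn⟩ := e n
    rw [hm, hn]
    exact h3 m' n'

end

end BD7
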