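import Mathlib

/-!
# A checker for coset enumerations

Vertices are numbered `0, 1, 2, ...`; vertex `n` stands for a group element `g n`. A row of the
table contains a parent (`u + 1` if the vertex has been identified with `u`, `0` otherwise) and the
edges (`w + 1` at position `c` if `g v * e c` and `g w` are in the same right coset of `H`).
-/

set_option autoImplicit false

namespace BD7

/-- binary tries -/
inductive Tr (α : Type) : Type
  | nil : Tr α
  | node (l : Tr α) (v : α) (r : Tr α) : Tr α

section trie

variable {α : Type}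

def Tr.get (d : α) : Tr α → ℕ → α
  | .nil, _ => d
  | .node l v r, k =>
    cond (Nat.beq k 0) v (cond (Nat.beq (k % 2) 1) (l.get d (k / 2)) (r.get d (k / 2 - 1)))

def Tr.set (d : α) : ℕ → Tr α → ℕ → α → Tr α
  | 0, t, _, _ => t
  | f + 1, .nil, k, x =>
    cond (Nat.beq k 0) (.node .nil x .nil)
      (cond (Nat.beq (k % 2) 1) (.node (Tr.set d f .nil (k / 2) x) d .nil)
        (.node .nil d (Tr.set d f .nil (k / 2 - 1) x)))
  | f + 1, .node l v r, k, x =>
    cond (Nat.beq k 0) (.node l x r)
      (cond (Nat.beq (k % 2) 1) (.node (Tr.set d f l (k / 2) x) v r)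
        (.node l v (Tr.set d f r (k / 2 - 1) x)))

theorem Tr.get_set (d : α) (f : ℕ) (t : Tr α) (k : ℕ) (x : α) (k' : ℕ) :
    (k' = k ∧ (Tr.set d f t k x).get d k' = x) ∨ (Tr.set d f t k x).get d k' = t.get d k' := by
  induction f generalizing t k k' with
  | zero => right; cases t <;> rfl
  | succ f ih =>
    rcases Nat.eq_zero_or_pos k with hk | hk
    · subst hk
      rcases Nat.eq_zero_or_pos k' with hk' | hk'
      · subst hk'
        left
        cases t <;> exact ⟨rfl, rfl⟩
      · right
        have h1 : Nat.beq k' 0 = false := by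
          cases k' with
          | zero => omega
          | succ n => rfl
        cases t with
        | nil =>
          change cond (Nat.beq k' 0) x (cond (Nat.beq (k' % 2) 1) d d) = d
          rw [h1]
          cases Nat.beq (k' % 2) 1 <;> rfl
        | node l v r =>
          change cond (Nat.beq k' 0) x _ = cond (Nat.beq k' 0) v _
          rw [h1]
          rfl
    · have h1 : Nat.beq k 0 = false := by
        cases k with
        | zero => omega
        | succ n => rfl
      rcases Nat.eq_zero_or_pos k' with hk' | hk'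
      · subst hk'
        right
        cases t with
        | nil =>
          rw [Tr.set, h1]
          cases h2 : Nat.beq (k % 2) 1 <;> rfl
        | node l v r =>
          rw [Tr.set, h1]
          cases h2 : Nat.beq (k % 2) 1 <;> rfl
      · have h1' : Nat.beq k' 0 = false := by
          cases k' with
          | zero => omega
          | succ n => rfl
        have key : ∀ (l r : Tr α) (v : α),
            (k' = k ∧ (cond (Nat.beq (k % 2) 1) (Tr.node (Tr.set d f l (k / 2) x) v r)
              (Tr.node l v (Tr.set d f r (k / 2 - 1) x))).get d k' = x) ∨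
            (cond (Nat.beq (k % 2) 1) (Tr.node (Tr.set d f l (k / 2) x) v r)
              (Tr.node l v (Tr.set d f r (k / 2 - 1) x))).get d k' =
              cond (Nat.beq (k' % 2) 1) (l.get d (k' / 2)) (r.get d (k' / 2 - 1)) := by
          intro l r v
          cases h2 : Nat.beq (k % 2) 1 with
          | true =>
            have h2' : k % 2 = 1 := Nat.eq_of_beq_eq_true h2
            change (k' = k ∧ (Tr.node (Tr.set d f l (k / 2) x) v r).get d k' = x) ∨
              (Tr.node (Tr.set d f l (k / 2) x) v r).get d k' = _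
            rw [Tr.get, h1']
            cases h3 : Nat.beq (k' % 2) 1 with
            | true =>
              have h3' : k' % 2 = 1 := Nat.eq_of_beq_eq_true h3
              rcases ih l (k / 2) (k' / 2) with h4 | h4
              · left; exact ⟨by omega, h4.2⟩
              · right; exact h4
            | false => right; rfl
          | false =>
            have h2' : k % 2 ≠ 1 := fun h => by rw [h] at h2; exact absurd h2 (by decide)
            change (k' = k ∧ (Tr.node l v (Tr.set d f r (k / 2 - 1) x)).get d k' = x) ∨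
              (Tr.node l v (Tr.set d f r (k / 2 - 1) x)).get d k' = _
            rw [Tr.get, h1']
            cases h3 : Nat.beq (k' % 2) 1 with
            | true => right; rfl
            | false =>
              have h3' : k' % 2 ≠ 1 := fun h => by rw [h] at h3; exact absurd h3 (by decide)
              rcases ih r (k / 2 - 1) (k' / 2 - 1) with h4 | h4
              · left; exact ⟨by omega, h4.2⟩
              · right; exact h4
        cases t with
        | nil =>
          rw [Tr.set, h1]
          rcases key .nil .nil d with h | h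
          · left; exact h
          · right
            refine h.trans ?_
            cases Nat.beq (k' % 2) 1 <;> rfl
        | node l v r =>
          rw [Tr.set, h1]
          rcases key l r v with h | h
          · left; exact h
          · right
            refine h.trans ?_
            rw [Tr.get, h1']
            rfl

end trie

/-- a row: parent, edges -/
abbrev Row := ℕ × List ℕ

abbrev St := Tr Row

def row (T : St) (v : ℕ) : Row := T.get (0, []) v

def gt : List ℕ → ℕ → ℕ
  | [], _ => 0
  | x :: _, 0 => x
  | _ :: l, c + 1 => gt l c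

def upd : List ℕ → ℕ → ℕ → List ℕ
  | [], 0, x => [x]
  | [], c + 1, x => 0 :: upd [] c x
  | _ :: l, 0, x => x :: l
  | y :: l, c + 1, x => y :: upd l c x

theorem gt_upd (l : List ℕ) (c x c' : ℕ) : gt (upd l c x) c' = if c' = c then x else gt l c' := by
  induction c generalizing l c' with
  | zero =>
    cases l <;> cases c' <;> rfl
  | succ c ih =>
    cases l with
    | nil =>
      cases c' with
      | zero => rfl
      | succ c' =>
        change gt (upd [] c x) c' = _
        rw [ih]
        simp [gt]
    | cons y l =>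
      cases c' with
      | zero => rfl
      | succ c' =>
        change gt (upd l c x) c' = _
        rw [ih]
        simp [gt]

def find : ℕ → St → ℕ → ℕ
  | 0, _, v => v
  | f + 1, T, v => Nat.casesOn (row T v).1 v fun u => find f T u

def step (T : St) (v c : ℕ) : ℕ :=
  Nat.casesOn (gt (row T v).2 c) 0 fun w => find 60 T w + 1

def walk (T : St) : List ℕ → ℕ → ℕ × List ℕ
  | [], v => (v, [])
  | c :: w, v => Nat.casesOn (step T v c) (v, c :: w) fun u => walk T w u

def putE (T : St) (v c w : ℕ) : St :=
  Tr.set (0, []) 20 T v ((row T v).1, upd (row T v).2 c (w + 1))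

def zipR : List ℕ → List ℕ → List ℕ
  | [], l => l
  | x :: l, [] => x :: l
  | x :: l, y :: m => (Nat.casesOn x y fun _ => x) :: zipR l m

def pairs : List ℕ → List ℕ → List (ℕ × ℕ)
  | x :: l, y :: m =>
    Nat.casesOn x (pairs l m) fun x' => Nat.casesOn y (pairs l m) fun y' => (x', y') :: pairs l m
  | _, _ => []

def uni (T : St) (lo hi : ℕ) : St :=
  Tr.set (0, []) 20 (Tr.set (0, []) 20 T lo ((row T lo).1, zipR (row T lo).2 (row T hi).2)) hi
    (lo + 1, [])

def mrg : ℕ → St → List (ℕ × ℕ) → St
  | 0, T, _ => T
  | _ + 1, T, [] => T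
  | f + 1, T, x :: q =>
    cond (Nat.beq (find 60 T x.1) (find 60 T x.2)) (mrg f T q)
      (cond (Nat.ble (find 60 T x.1) (find 60 T x.2))
        (mrg f (uni T (find 60 T x.1) (find 60 T x.2))
          (q ++ pairs (row T (find 60 T x.1)).2 (row T (find 60 T x.2)).2))
        (mrg f (uni T (find 60 T x.2) (find 60 T x.1))
          (q ++ pairs (row T (find 60 T x.2)).2 (row T (find 60 T x.1)).2)))

def iv (c : ℕ) : ℕ := cond (Nat.beq (c % 2) 0) (c + 1) (c - 1)

def invw : List ℕ → List ℕ → List ℕ
  | [], acc => acc
  | c :: w, acc => invw w (iv c :: acc)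

def scan2 (T : St) (v1 : ℕ) (x : ℕ × List ℕ) : St :=
  match x.2 with
  | [] => mrg 5000 T [(v1, x.1)]
  | [y] => putE (putE T v1 (iv y) x.1) x.1 y v1
  | _ :: _ :: _ => T

def scan1 (T : St) (v : ℕ) (x : ℕ × List ℕ) : St :=
  match x.2 with
  | [] => mrg 5000 T [(x.1, v)]
  | c :: w => scan2 T x.1 (walk T (invw (c :: w) []) v)

def scan (T : St) (a : ℕ) (r : List ℕ) : St :=
  scan1 T (find 60 T a) (walk T r (find 60 T a))

def sh (s : ℕ) (w : List ℕ) : List ℕ := w.map fun c => (c + 2 * s) % 14

/-! ### forcing the evaluation -/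

def fN {β : Type} (n : ℕ) (k : ℕ → β) : β := Nat.casesOn n (k 0) fun m => k (Nat.succ m)

def fL {β : Type} : List ℕ → (List ℕ → β) → β
  | [], k => k []
  | x :: l, k => fN x fun x' => fL l fun l' => k (x' :: l')

def fT {β : Type} : St → (St → β) → β
  | .nil, k => k .nil
  | .node l v r, k => fT l fun l' => fT r fun r' => fN v.1 fun a => fL v.2 fun b =>
    k (.node l' (a, b) r')

theorem fN_eq {β : Type} (n : ℕ) (k : ℕ → β) : fN n k = k n := by
  cases n <;> rfl

theorem fL_eq {β : Type} (l : List ℕ) (k : List ℕ → β) : fL l k = k l := by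
  induction l generalizing k with
  | nil => rfl
  | cons x l ih =>
    rw [fL, fN_eq, ih]

theorem fT_eq {β : Type} (T : St) (k : St → β) : fT T k = k T := by
  induction T generalizing k with
  | nil => rfl
  | node l v r ihl ihr =>
    rw [fT, ihl, ihr, fN_eq, fL_eq]

/-- definitions of `m` vertices `n, n + 1, ...`, one digit `16 p + c` in base `2 ^ 15` for each -/
def build : ℕ → ℕ → ℕ → St → St
  | 0, _, _, T => T
  | m + 1, D, n, T =>
    cond (Nat.ble (D % 32768 / 16 + 1) n)
      (cond (Nat.beq (m % 16) 0)
        (fT (putE (putE T (D % 32768 / 16) (D % 32768 % 16) n) n (iv (D % 32768 % 16))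
          (D % 32768 / 16)) (build m (D / 32768) (n + 1)))
        (build m (D / 32768) (n + 1)
          (putE (putE T (D % 32768 / 16) (D % 32768 % 16) n) n (iv (D % 32768 % 16))
            (D % 32768 / 16))))
      T

def nth : List (List ℕ) → ℕ → List ℕ
  | [], _ => []
  | x :: _, 0 => x
  | _ :: l, n + 1 => nth l n

/-- `m` loops, one digit `(16 a + i) 8 + s` in base `2 ^ 18` for each -/
def runL (R : List (List ℕ)) : ℕ → ℕ → St → St
  | 0, _, T => T
  | m + 1, L, T =>
    cond (Nat.beq (m % 16) 0)
      (fT (scan T (L % 262144 / 128) (sh (L % 8) (nth R (L % 128 / 8))))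
        (runL R m (L / 262144)))
      (runL R m (L / 262144) (scan T (L % 262144 / 128) (sh (L % 8) (nth R (L % 128 / 8)))))

def startT : List ℕ → St
  | [] => .nil
  | c :: l => putE (putE (startT l) 0 c 0) 0 (iv c) 0

def fin (x : ℕ × List ℕ) : Bool :=
  match x with
  | (0, []) => true
  | _ => false

/-- the certificate is correct -/
def check (R : List (List ℕ)) (Hs : List ℕ) (nD D nL L : ℕ) (t : List ℕ) : Bool :=
  fin (walk (runL R nL L (build nD D 1 (startT Hs))) t 0)

/-! ### soundness -/

section sound

variable {G : Type*} [Group G] (H : Subgroup G) (e : ℕ → G) (g : ℕ → G)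

def Inv (T : St) : Prop := ∀ v,
  (∀ u, (row T v).1 = u + 1 → g v * (g u)⁻¹ ∈ H) ∧
  ∀ c w, gt (row T v).2 c = w + 1 → g v * e c * (g w)⁻¹ ∈ H

variable {H e g}

theorem find_mem {T : St} (h : Inv H e g T) (f v : ℕ) : g v * (g (find f T v))⁻¹ ∈ H := by
  induction f generalizing v with
  | zero => simp [find, H.one_mem]
  | succ f ih =>
    rw [find]
    cases h1 : (row T v).1 with
    | zero => simp [H.one_mem]
    | succ u =>
      have h2 := (h v).1 u h1
      have h3 := ih u
      have h4 := H.mul_mem h2 h3
      rwa [mul_assoc, inv_mul_cancel_left] at h4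

theorem step_mem {T : St} (h : Inv H e g T) {v c u : ℕ} (hs : step T v c = u + 1) :
    g v * e c * (g u)⁻¹ ∈ H := by
  unfold step at hs
  cases h1 : gt (row T v).2 c with
  | zero => rw [h1] at hs; simp at hs
  | succ w =>
    rw [h1] at hs
    have hs' : find 60 T w = u := Nat.succ.inj hs
    have h2 := (h v).2 c w h1
    have h3 := find_mem h 60 w
    rw [hs'] at h3
    have h4 := H.mul_mem h2 h3
    rwa [mul_assoc, inv_mul_cancel_left] at h4

/-- the value of a word -/
def ev (e : ℕ → G) : List ℕ → G
  | [] => 1
  | c :: w => e c * ev e w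

theorem ev_append (a b : List ℕ) : ev e (a ++ b) = ev e a * ev e b := by
  induction a with
  | nil => simp [ev]
  | cons c a ih => simp [ev, ih, mul_assoc]

theorem walk_mem {T : St} (h : Inv H e g T) (w : List ℕ) (v : ℕ) :
    g v * ev e w * (ev e (walk T w v).2)⁻¹ * (g (walk T w v).1)⁻¹ ∈ H := by
  induction w generalizing v with
  | nil => simp [walk, ev, H.one_mem]
  | cons c w ih =>
    rw [walk]
    cases h1 : step T v c with
    | zero =>
      simp [H.one_mem]
    | succ u =>
      have h2 := step_mem h h1
      have h3 := ih u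
      have h4 := H.mul_mem h2 h3
      have h5 : g v * e c * (g u)⁻¹ * (g u * ev e w * (ev e (walk T w u).2)⁻¹ *
          (g (walk T w u).1)⁻¹) = g v * ev e (c :: w) * (ev e (walk T w u).2)⁻¹ *
          (g (walk T w u).1)⁻¹ := by
        rw [ev]; group
      rw [h5] at h4
      exact h4

theorem inv_set {T : St} (h : Inv H e g T) {v : ℕ} {x : Row}
    (h1 : ∀ u, x.1 = u + 1 → g v * (g u)⁻¹ ∈ H)
    (h2 : ∀ c w, gt x.2 c = w + 1 → g v * e c * (g w)⁻¹ ∈ H) :
    Inv H e g (Tr.set (0, []) 20 T v x) := by
  intro v'
  unfold row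
  rcases Tr.get_set (0, []) 20 T v x v' with ⟨rfl, h3⟩ | h3
  · rw [h3]
    exact ⟨h1, h2⟩
  · rw [h3]
    exact h v'

theorem putE_inv {T : St} (h : Inv H e g T) {v c w : ℕ} (hm : g v * e c * (g w)⁻¹ ∈ H) :
    Inv H e g (putE T v c w) := by
  refine inv_set h (h v).1 fun c' w' hh => ?_
  rw [gt_upd] at hh
  by_cases hc : c' = c
  · rw [if_pos hc] at hh
    have : w = w' := Nat.succ.inj hh
    rw [hc, ← this]
    exact hm
  · rw [if_neg hc] at hh
    exact (h v).2 c' w' hh

theorem gt_zipR (l m : List ℕ) (c w : ℕ) (h : gt (zipR l m) c = w + 1) :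
    gt l c = w + 1 ∨ gt m c = w + 1 := by
  induction l generalizing m c with
  | nil => right; exact h
  | cons x l ih =>
    cases m with
    | nil => left; exact h
    | cons y m =>
      cases c with
      | zero =>
        cases x with
        | zero => right; exact h
        | succ x => left; exact h
      | succ c => exact ih m c h

theorem mem_pairs (l m : List ℕ) (x : ℕ × ℕ) (h : x ∈ pairs l m) :
    ∃ c, gt l c = x.1 + 1 ∧ gt m c = x.2 + 1 := by
  induction l generalizing m with
  | nil => exact absurd h (List.not_mem_nil)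
  | cons a l ih =>
    cases m with
    | nil => exact absurd h (List.not_mem_nil)
    | cons b m =>
      have key : x ∈ pairs l m → ∃ c, gt (a :: l) c = x.1 + 1 ∧ gt (b :: m) c = x.2 + 1 := by
        intro h'
        obtain ⟨c, h1, h2⟩ := ih m h'
        exact ⟨c + 1, h1, h2⟩
      cases a with
      | zero => exact key h
      | succ a =>
        cases b with
        | zero => exact key h
        | succ b =>
          have h' : x ∈ (a, b) :: pairs l m := h
          rcases List.mem_cons.1 h' with rfl | h'
          · exact ⟨0, rfl, rfl⟩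
          · exact key h'

theorem uni_inv {T : St} (h : Inv H e g T) {lo hi : ℕ} (hm : g hi * (g lo)⁻¹ ∈ H) :
    Inv H e g (uni T lo hi) := by
  unfold uni
  have h0 : Inv H e g (Tr.set (0, []) 20 T lo ((row T lo).1, zipR (row T lo).2 (row T hi).2)) := by
    refine inv_set h (h lo).1 fun c w hh => ?_
    rcases gt_zipR _ _ _ _ hh with h1 | h1
    · exact (h lo).2 c w h1
    · have h2 := H.mul_mem (H.inv_mem hm) ((h hi).2 c w h1)
      have h3 : (g hi * (g lo)⁻¹)⁻¹ * (g hi * e c * (g w)⁻¹) = g lo * e c * (g w)⁻¹ := by group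
      rwa [h3] at h2
  refine inv_set h0 (fun u hu => ?_) fun c w hh => ?_
  · have h1 : lo = u := Nat.succ.inj hu
    rw [← h1]
    exact hm
  · exact absurd hh (by cases c <;> simp [gt])

theorem mrg_inv (f : ℕ) : ∀ (T : St) (q : List (ℕ × ℕ)), Inv H e g T →
    (∀ x ∈ q, g x.1 * (g x.2)⁻¹ ∈ H) → Inv H e g (mrg f T q) := by
  induction f with
  | zero => intro T q h _; exact h
  | succ f ih =>
    intro T q h hq
    cases q with
    | nil => exact h
    | cons x q =>
      have hx := hq x List.mem_cons_self
      have hq' : ∀ y ∈ q, g y.1 * (g y.2)⁻¹ ∈ H := fun y hy => hq y (List.mem_cons_of_mem _ hy)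
      have h1 := find_mem h 60 x.1
      have h2 := find_mem h 60 x.2
      have h3 : g (find 60 T x.1) * (g (find 60 T x.2))⁻¹ ∈ H := by
        have h4 := H.mul_mem (H.mul_mem (H.inv_mem h1) hx) h2
        have h5 : (g x.1 * (g (find 60 T x.1))⁻¹)⁻¹ * (g x.1 * (g x.2)⁻¹) *
            (g x.2 * (g (find 60 T x.2))⁻¹) = g (find 60 T x.1) * (g (find 60 T x.2))⁻¹ := by
          group
        rwa [h5] at h4
      have key : ∀ a b : ℕ, g a * (g b)⁻¹ ∈ H →
          Inv H e g (mrg f (uni T a b) (q ++ pairs (row T a).2 (row T b).2)) := by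
        intro a b hab
        have hba : g b * (g a)⁻¹ ∈ H := by
          have := H.inv_mem hab
          rwa [mul_inv_rev, inv_inv] at this
        refine ih _ _ (uni_inv h hba) fun y hy => ?_
        rcases List.mem_append.1 hy with hy | hy
        · exact hq' y hy
        · obtain ⟨c, h6, h7⟩ := mem_pairs _ _ _ hy
          have h8 := (h a).2 c _ h6
          have h9 := (h b).2 c _ h7
          have h10 := H.mul_mem (H.mul_mem (H.inv_mem h8) hab) h9
          have h11 : (g a * e c * (g y.1)⁻¹)⁻¹ * (g a * (g b)⁻¹) * (g b * e c * (g y.2)⁻¹) =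
              g y.1 * (g y.2)⁻¹ := by group
          rwa [h11] at h10
      rw [mrg]
      cases Nat.beq (find 60 T x.1) (find 60 T x.2) with
      | true => exact ih T q h hq'
      | false =>
        cases Nat.ble (find 60 T x.1) (find 60 T x.2) with
        | true => exact key _ _ h3
        | false =>
          refine key _ _ ?_
          have := H.inv_mem h3
          rwa [mul_inv_rev, inv_inv] at this

theorem ev_invw (he : ∀ c, e (iv c) = (e c)⁻¹) (w acc : List ℕ) :
    ev e (invw w acc) = (ev e w)⁻¹ * ev e acc := by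
  induction w generalizing acc with
  | nil => simp [invw, ev]
  | cons c w ih =>
    rw [invw, ih, ev, ev, he]
    group

theorem scan_inv (he : ∀ c, e (iv c) = (e c)⁻¹) {T : St} (h : Inv H e g T) (a : ℕ)
    {r : List ℕ} (hr : ev e r = 1) : Inv H e g (scan T a r) := by
  unfold scan
  generalize find 60 T a = v
  have h1 := walk_mem h r v
  rw [hr, mul_one] at h1
  generalize walk T r v = x at h1 ⊢
  obtain ⟨v1, rest⟩ := x
  change g v * (ev e rest)⁻¹ * (g v1)⁻¹ ∈ H at h1
  unfold scan1
  cases rest with
  | nil =>
    refine mrg_inv _ _ _ h fun x hx => ?_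
    rw [List.mem_singleton] at hx
    subst hx
    have := H.inv_mem h1
    have h2 : (g v * (ev e [])⁻¹ * (g v1)⁻¹)⁻¹ = g v1 * (g v)⁻¹ := by
      rw [ev]; group
    rwa [h2] at this
  | cons c w =>
    have h2 := walk_mem h (invw (c :: w) []) v
    rw [ev_invw he] at h2
    change Inv H e g (scan2 T v1 (walk T (invw (c :: w) []) v))
    generalize walk T (invw (c :: w) []) v = y at h2 ⊢
    obtain ⟨v2, rest2⟩ := y
    change g v * ((ev e (c :: w))⁻¹ * ev e []) * (ev e rest2)⁻¹ * (g v2)⁻¹ ∈ H at h2
    have h3 : g v1 * (ev e rest2)⁻¹ * (g v2)⁻¹ ∈ H := by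
      have h4 := H.mul_mem (H.inv_mem h1) h2
      have h5 : (g v * (ev e (c :: w))⁻¹ * (g v1)⁻¹)⁻¹ *
          (g v * ((ev e (c :: w))⁻¹ * ev e []) * (ev e rest2)⁻¹ * (g v2)⁻¹) =
          g v1 * (ev e rest2)⁻¹ * (g v2)⁻¹ := by
        have : ev e [] = 1 := rfl
        rw [this]; group
      rwa [h5] at h4
    unfold scan2
    match rest2, h3 with
    | [], h3 =>
      refine mrg_inv _ _ _ h fun x hx => ?_
      rw [List.mem_singleton] at hx
      subst hx
      have h5 : g v1 * (ev e [])⁻¹ * (g v2)⁻¹ = g v1 * (g v2)⁻¹ := by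
        rw [ev]; group
      rwa [h5] at h3
    | [y], h3 =>
      have h5 : g v1 * (ev e [y])⁻¹ * (g v2)⁻¹ = g v1 * e (iv y) * (g v2)⁻¹ := by
        rw [ev, ev, he]; group
      rw [h5] at h3
      refine putE_inv (putE_inv h h3) ?_
      have := H.inv_mem h3
      have h6 : (g v1 * e (iv y) * (g v2)⁻¹)⁻¹ = g v2 * e y * (g v1)⁻¹ := by
        rw [he]; group
      rwa [h6] at this
    | _ :: _ :: _, _ => exact h

/-- the group elements of the vertices -/
noncomputable def gg (e : ℕ → G) (D : ℕ) : ℕ → G
  | 0 => 1
  | n + 1 =>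
    if h : D / 32768 ^ n % 32768 / 16 < n + 1 then
      gg e D (D / 32768 ^ n % 32768 / 16) * e (D / 32768 ^ n % 32768 % 16)
    else 1

theorem build_inv (he : ∀ c, e (iv c) = (e c)⁻¹) (D₀ : ℕ) (m : ℕ) : ∀ (n : ℕ) (T : St),
    Inv H e (gg e D₀) T → Inv H e (gg e D₀) (build m (D₀ / 32768 ^ n) (n + 1) T) := by
  induction m with
  | zero => intro n T h; exact h
  | succ m ih =>
    intro n T h
    rw [build]
    cases h1 : Nat.ble (D₀ / 32768 ^ n % 32768 / 16 + 1) (n + 1) with
    | false => exact h
    | true =>
      have h2 : D₀ / 32768 ^ n % 32768 / 16 < n + 1 := Nat.le_of_ble_eq_true h1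
      have h3 : gg e D₀ (n + 1) =
          gg e D₀ (D₀ / 32768 ^ n % 32768 / 16) * e (D₀ / 32768 ^ n % 32768 % 16) := by
        rw [gg, dif_pos h2]
      have h4 : D₀ / 32768 ^ n / 32768 = D₀ / 32768 ^ (n + 1) := by
        rw [Nat.div_div_eq_div_mul, pow_succ]
      have h5 : Inv H e (gg e D₀) (putE (putE T (D₀ / 32768 ^ n % 32768 / 16)
          (D₀ / 32768 ^ n % 32768 % 16) (n + 1)) (n + 1) (iv (D₀ / 32768 ^ n % 32768 % 16))
          (D₀ / 32768 ^ n % 32768 / 16)) := by
        refine putE_inv (putE_inv h ?_) ?_
        · rw [h3, mul_inv_cancel]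
          exact H.one_mem
        · rw [h3, he]
          have : gg e D₀ (D₀ / 32768 ^ n % 32768 / 16) * e (D₀ / 32768 ^ n % 32768 % 16) *
              (e (D₀ / 32768 ^ n % 32768 % 16))⁻¹ *
              (gg e D₀ (D₀ / 32768 ^ n % 32768 / 16))⁻¹ = 1 := by group
          rw [this]
          exact H.one_mem
      have h6 := ih (n + 1) _ h5
      rw [← h4] at h6
      change Inv H e (gg e D₀) (cond (Nat.beq (m % 16) 0) _ _)
      cases Nat.beq (m % 16) 0 with
      | true =>
        change Inv H e (gg e D₀) (fT _ _)
        rw [fT_eq]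
        exact h6
      | false => exact h6

theorem runL_inv (he : ∀ c, e (iv c) = (e c)⁻¹) {R : List (List ℕ)}
    (hR : ∀ r ∈ R, ∀ s, ev e (sh s r) = 1) (m : ℕ) : ∀ (L : ℕ) (T : St),
    Inv H e g T → Inv H e g (runL R m L T) := by
  have hn : ∀ (R : List (List ℕ)) (i : ℕ), nth R i = [] ∨ nth R i ∈ R := by
    intro R
    induction R with
    | nil => intro i; left; rfl
    | cons x R ih =>
      intro i
      cases i with
      | zero => right; exact List.mem_cons_self
      | succ i =>
        rcases ih i with h | h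
        · left; exact h
        · right; exact List.mem_cons_of_mem _ h
  have hn' : ∀ i s, ev e (sh s (nth R i)) = 1 := by
    intro i s
    rcases hn R i with h | h
    · rw [h]; rfl
    · exact hR _ h s
  induction m with
  | zero => intro L T h; exact h
  | succ m ih =>
    intro L T h
    have h5 : Inv H e g (scan T (L % 262144 / 128) (sh (L % 8) (nth R (L % 128 / 8)))) :=
      scan_inv he h _ (hn' _ _)
    have h6 := ih (L / 262144) _ h5
    rw [runL]
    cases Nat.beq (m % 16) 0 with
    | true =>
      change Inv H e g (fT _ _)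
      rw [fT_eq]
      exact h6
    | false => exact h6

theorem startT_inv (he : ∀ c, e (iv c) = (e c)⁻¹) (h0 : g 0 = 1) (Hs : List ℕ)
    (hH : ∀ c ∈ Hs, e c ∈ H) : Inv H e g (startT Hs) := by
  induction Hs with
  | nil =>
    intro v
    have : row (startT []) v = (0, []) := rfl
    rw [this]
    refine ⟨fun u hu => absurd hu (by simp), fun c w hh => absurd hh (by cases c <;> simp [gt])⟩
  | cons c l ih =>
    have h1 := ih fun c hc => hH c (List.mem_cons_of_mem _ hc)
    have h2 := hH c List.mem_cons_self
    refine putE_inv (putE_inv h1 ?_) ?_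
    · rw [h0]; simpa using h2
    · rw [h0, he]; simpa using h2

/-- a correct certificate proves that the value of `t` is in `H` -/
theorem check_sound (he : ∀ c, e (iv c) = (e c)⁻¹) {R : List (List ℕ)}
    (hR : ∀ r ∈ R, ∀ s, ev e (sh s r) = 1) {Hs : List ℕ} (hH : ∀ c ∈ Hs, e c ∈ H)
    {nD D nL L : ℕ} {t : List ℕ} (hc : check R Hs nD D nL L t = true) : ev e t ∈ H := by
  have h0 : gg e D 0 = 1 := by rw [gg]
  have h1 := startT_inv (g := gg e D) he h0 Hs hH
  have h2 := build_inv he D nD 0 _ h1
  rw [pow_zero, Nat.div_one, zero_add] at h2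
  have h3 := runL_inv he hR nL L _ h2
  have h4 := walk_mem h3 t 0
  unfold check at hc
  generalize walk (runL R nL L (build nD D 1 (startT Hs))) t 0 = x at hc h4
  match x, hc with
  | (0, []), _ =>
    rw [h0] at h4
    simpa [ev] using h4
  | (_ + 1, _), hc => exact absurd hc (by simp [fin])
  | (0, _ :: _), hc => exact absurd hc (by simp [fin])

end sound

end BD7
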