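import Pool.Agent.Lib.MP_bd2ea4_al.Cases

/-!
# Commuting directions

`Dir a b`: some element `x = a ^ i * b ^ j` (`j` not divisible by seven) commutes with its
conjugate by a power `a ^ k ≠ 1`, or the same with `a` and `b` exchanged.
-/

set_option autoImplicit false

namespace BD7

section

variable {G : Type*} [Group G]

/-- a commuting direction for the pair `a, b` -/
def Dir (a b : G) : Prop :=
  ∃ i j k : ℕ, ¬ 7 ∣ j ∧ ¬ 7 ∣ k ∧
    (Commute (a ^ i * b ^ j) ((a ^ k)⁻¹ * (a ^ i * b ^ j) * a ^ k) ∨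
      Commute (b ^ i * a ^ j) ((b ^ k)⁻¹ * (b ^ i * a ^ j) * b ^ k))

theorem exists_inv7 (h7 : ∀ g : G, g ^ 7 = 1) {k : ℕ} (hk : ¬ 7 ∣ k) :
    ∃ k' : ℕ, ¬ 7 ∣ k' ∧ ∀ g : G, (g ^ k) ^ k' = g := by
  have h : ∃ k' : ℕ, k * k' % 7 = 1 := by
    have h6 : k % 7 = 1 ∨ k % 7 = 2 ∨ k % 7 = 3 ∨ k % 7 = 4 ∨ k % 7 = 5 ∨ k % 7 = 6 := by omega
    rcases h6 with h | h | h | h | h | h
    · exact ⟨1, by rw [Nat.mul_mod, h]⟩
    · exact ⟨4, by rw [Nat.mul_mod, h]⟩
    · exact ⟨5, by rw [Nat.mul_mod, h]⟩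
    · exact ⟨2, by rw [Nat.mul_mod, h]⟩
    · exact ⟨3, by rw [Nat.mul_mod, h]⟩
    · exact ⟨6, by rw [Nat.mul_mod, h]⟩
  obtain ⟨k', hk'⟩ := h
  refine ⟨k', ?_, fun g => ?_⟩
  · rintro ⟨m, rfl⟩
    rw [show k * (7 * m) = 7 * (k * m) by ring, Nat.mul_mod_right] at hk'
    exact absurd hk' (by norm_num)
  · rw [← pow_mul, pow_mod7 (h7 g), hk', pow_one]

theorem mem_cl_left (a b : G) : a ∈ Subgroup.closure {a, b} :=
  Subgroup.subset_closure (Set.mem_insert a {b})

theorem mem_cl_right (a b : G) : b ∈ Subgroup.closure {a, b} :=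
  Subgroup.subset_closure (Set.mem_insert_of_mem a rfl)

theorem closure_pow_right (h7 : ∀ g : G, g ^ 7 = 1) {k : ℕ} (hk : ¬ 7 ∣ k) (a x : G) :
    Subgroup.closure {a, x ^ k} = Subgroup.closure {a, x} := by
  obtain ⟨k', -, hk'⟩ := exists_inv7 h7 hk
  apply le_antisymm
  · rw [Subgroup.closure_le]
    rintro y (rfl | rfl)
    · exact mem_cl_left _ _
    · exact Subgroup.pow_mem _ (mem_cl_right _ _) _
  · rw [Subgroup.closure_le]
    rintro y (rfl | rfl)
    · exact mem_cl_left _ _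
    · have : (y ^ k) ^ k' ∈ Subgroup.closure {a, y ^ k} :=
        Subgroup.pow_mem _ (mem_cl_right _ _) _
      rw [hk'] at this
      exact this

/-- the first step: new generators with `[x, x ^ a'] = 1` -/
theorem first_step (h7 : ∀ g : G, g ^ 7 = 1) {a b : G} (hd : Dir a b) :
    ∃ a' x : G, Subgroup.closure {a', x} = Subgroup.closure {a, b} ∧
      Commute (bb a' x 0) (bb a' x 1) := by
  have key : ∀ (a b : G) (i j k : ℕ), ¬ 7 ∣ j → ¬ 7 ∣ k →
      Commute (a ^ i * b ^ j) ((a ^ k)⁻¹ * (a ^ i * b ^ j) * a ^ k) →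
      ∃ a' x : G, Subgroup.closure {a', x} = Subgroup.closure {a, b} ∧
        Commute (bb a' x 0) (bb a' x 1) := by
    intro a b i j k hj hk h
    refine ⟨a ^ k, a ^ i * b ^ j, ?_, ?_⟩
    · obtain ⟨k', -, hk'⟩ := exists_inv7 h7 hk
      obtain ⟨j', -, hj'⟩ := exists_inv7 h7 hj
      apply le_antisymm
      · rw [Subgroup.closure_le]
        have ha : a ∈ Subgroup.closure {a, b} := mem_cl_left _ _
        have hb : b ∈ Subgroup.closure {a, b} := mem_cl_right _ _
        rintro y (rfl | rfl)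
        · exact Subgroup.pow_mem _ ha _
        · exact Subgroup.mul_mem _ (Subgroup.pow_mem _ ha _) (Subgroup.pow_mem _ hb _)
      · rw [Subgroup.closure_le]
        have ha : a ∈ Subgroup.closure {a ^ k, a ^ i * b ^ j} := by
          have : (a ^ k) ^ k' ∈ Subgroup.closure {a ^ k, a ^ i * b ^ j} :=
            Subgroup.pow_mem _ (mem_cl_left _ _) _
          rwa [hk'] at this
        have hb : b ∈ Subgroup.closure {a ^ k, a ^ i * b ^ j} := by
          have h1 : a ^ i * b ^ j ∈ Subgroup.closure {a ^ k, a ^ i * b ^ j} :=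
            mem_cl_right _ _
          have h2 : b ^ j ∈ Subgroup.closure {a ^ k, a ^ i * b ^ j} := by
            have := Subgroup.mul_mem _ (Subgroup.inv_mem _ (Subgroup.pow_mem _ ha i)) h1
            rwa [inv_mul_cancel_left] at this
          have := Subgroup.pow_mem _ h2 j'
          rwa [hj'] at this
        rintro y (rfl | rfl)
        · exact ha
        · exact hb
    · unfold bb
      simpa using h
  obtain ⟨i, j, k, hj, hk, h | h⟩ := hd
  · exact key a b i j k hj hk h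
  · obtain ⟨a', x, h1, h2⟩ := key b a i j k hj hk h
    refine ⟨a', x, ?_, h2⟩
    rw [h1, Set.pair_comm]

theorem bb_of_pow (h7 : ∀ g : G, g ^ 7 = 1) {a x : G} {k : ℕ} (hk : ¬ 7 ∣ k)
    (h : ∀ m n, Commute (bb a (x ^ k) m) (bb a (x ^ k) n)) (m n : ℕ) :
    Commute (bb a x m) (bb a x n) := by
  obtain ⟨k', -, hk'⟩ := exists_inv7 h7 hk
  have e : ∀ m, bb a x m = bb a (x ^ k) m ^ k' := by
    intro m
    rw [bb_pow, hk']
  rw [e m, e n]
  exact (h m n).pow_pow _ _

/-- `pp` of a power -/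
theorem pp_pow {a x : G} (hc : Commute (bb a x 0) (bb a x 1)) (k : ℕ) :
    pp a (x ^ k) 0 = pp a x 0 ^ k := by
  unfold pp
  rw [← bb_pow, ← bb_pow, zero_add, hc.mul_pow]

/-- relation of the first kind -/
theorem R_of_comm {a x : G} {i k : ℕ}
    (h : Commute (a ^ i * pp a x 0) ((a ^ k)⁻¹ * (a ^ i * pp a x 0) * a ^ k)) :
    RRel a x i k := by
  unfold RRel
  rw [pp_eq a x i, pp_eq a x k, pp_eq a x (k + i)]
  set P := pp a x 0
  have hik : a ^ (k + i) = a ^ i * a ^ k := by rw [add_comm, pow_add]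
  have hki : (a ^ k)⁻¹ * a ^ i = a ^ i * (a ^ k)⁻¹ := by
    rw [inv_mul_eq_iff_eq_mul, ← mul_assoc, ← pow_add, add_comm, pow_add, mul_inv_cancel_right]
  have hki' : a ^ k * a ^ i = a ^ i * a ^ k := by rw [← pow_add, ← pow_add, add_comm]
  have h' := h.eq
  -- both sides are `a ^ i * a ^ i * _`
  have e1 : a ^ i * P * ((a ^ k)⁻¹ * (a ^ i * P) * a ^ k) =
      a ^ i * a ^ i * ((a ^ i)⁻¹ * P * a ^ i * ((a ^ k)⁻¹ * P * a ^ k)) := by
    calc a ^ i * P * ((a ^ k)⁻¹ * (a ^ i * P) * a ^ k)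
        = a ^ i * P * ((a ^ k)⁻¹ * a ^ i) * P * a ^ k := by group
      _ = a ^ i * P * (a ^ i * (a ^ k)⁻¹) * P * a ^ k := by rw [hki]
      _ = _ := by group
  have e2 : (a ^ k)⁻¹ * (a ^ i * P) * a ^ k * (a ^ i * P) =
      a ^ i * a ^ i * ((a ^ (k + i))⁻¹ * P * a ^ (k + i) * P) := by
    calc (a ^ k)⁻¹ * (a ^ i * P) * a ^ k * (a ^ i * P)
        = ((a ^ k)⁻¹ * a ^ i) * P * (a ^ k * a ^ i) * P := by group
      _ = (a ^ i * (a ^ k)⁻¹) * P * (a ^ i * a ^ k) * P := by rw [hki, hki']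
      _ = _ := by
          rw [hik, mul_inv_rev]
          have : a ^ i * (a ^ k)⁻¹ = a ^ i * a ^ i * ((a ^ k)⁻¹ * (a ^ i)⁻¹) := by
            calc a ^ i * (a ^ k)⁻¹ = a ^ i * (a ^ i * (a ^ k)⁻¹) * (a ^ i)⁻¹ := by
                  rw [← hki]; group
              _ = _ := by group
          rw [this]
          group
  rw [e1, e2] at h'
  exact mul_left_cancel h'

/-- relation of the second kind -/
theorem X_of_comm (h7 : ∀ g : G, g ^ 7 = 1) {a x : G} {i j : ℕ}
    (h : Commute (pp a x 0 ^ i * a ^ j) ((pp a x 0)⁻¹ * (pp a x 0 ^ i * a ^ j) * pp a x 0)) :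
    XRel a x i j := by
  unfold XRel
  rw [pp_eq a x (2 * j), pp_eq a x j]
  set P := pp a x 0
  have h6 : P ^ (i + 6) = P⁻¹ * P ^ i := by
    rw [pow_add, ← pow_inv7 (h7 P) 1 6 (by norm_num), pow_one]
    exact ((Commute.refl P).pow_left i).inv_right.eq
  have e : ∀ n : ℕ, ((a ^ j)⁻¹ * P * a ^ j) ^ n = (a ^ j)⁻¹ * P ^ n * a ^ j := by
    intro n
    have := conj_pow (i := n) (a := (a ^ j)⁻¹) (b := P)
    rwa [inv_inv] at this
  rw [e, e, h6, two_mul, pow_add, mul_inv_rev]
  have h' := congrArg (fun t => (a ^ j)⁻¹ * (a ^ j)⁻¹ * (P * (P ^ i)⁻¹) * t) h.eq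
  set A := a ^ j
  have e1 : A⁻¹ * A⁻¹ * (P * (P ^ i)⁻¹) * (P ^ i * A * (P⁻¹ * (P ^ i * A) * P)) =
      A⁻¹ * A⁻¹ * P * (A * A) * (A⁻¹ * (P⁻¹ * P ^ i) * A) * P := by group
  have e2 : A⁻¹ * A⁻¹ * (P * (P ^ i)⁻¹) * (P⁻¹ * (P ^ i * A) * P * (P ^ i * A)) =
      A⁻¹ * P ^ (i + 1) * A := by
    group
  rw [e1, e2] at h'
  exact h'

/-- the second step: all conjugates of `x` commute -/
theorem second_step (h7 : ∀ g : G, g ^ 7 = 1) {a x : G} (hc : Commute (bb a x 0) (bb a x 1))
    (hd : Dir a (pp a x 0)) (m n : ℕ) : Commute (bb a x m) (bb a x n) := by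
  have hcp : ∀ k, Commute (bb a (x ^ k) 0) (bb a (x ^ k) 1) := by
    intro k
    rw [← bb_pow, ← bb_pow]
    exact hc.pow_pow k k
  obtain ⟨i, j, k, hj, hk, h | h⟩ := hd
  · refine bb_of_pow h7 hj ?_ m n
    rw [← pp_pow hc] at h
    exact all_of_R (x ^ j) h7 (hcp j) hk (R_of_comm h)
  · refine bb_of_pow h7 hk ?_ m n
    obtain ⟨k', -, hk'⟩ := exists_inv7 h7 hk
    have e : pp a x 0 ^ i = pp a (x ^ k) 0 ^ (k' * i) := by
      rw [pp_pow hc, pow_mul, hk']
    rw [e, ← pp_pow hc] at h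
    exact all_of_X (x ^ k) h7 (hcp k) hj (X_of_comm h7 h)

/-! ### finiteness -/

/-- adding one element which normalizes a finite subgroup -/
theorem ext_finite {K : Subgroup G} (hK : Finite K) {y : G} (hy : y ^ 7 = 1)
    (hn : ∀ z ∈ K, y⁻¹ * z * y ∈ K) :
    Finite (K ⊔ Subgroup.zpowers y : Subgroup G) ∧
      Nat.card (K ⊔ Subgroup.zpowers y : Subgroup G) ≤ 7 * Nat.card K := by
  have hn' : ∀ (m : ℕ), ∀ z ∈ K, (y ^ m)⁻¹ * z * y ^ m ∈ K := by
    intro m
    induction m with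
    | zero => intro z hz; simpa using hz
    | succ m ih =>
      intro z hz
      have h1 := hn _ (ih z hz)
      have h2 : y⁻¹ * ((y ^ m)⁻¹ * z * y ^ m) * y = (y ^ (m + 1))⁻¹ * z * y ^ (m + 1) := by
        rw [pow_succ]; group
      rwa [h2] at h1
  have hinv : ∀ m : ℕ, y ^ m = (y ^ (6 * m))⁻¹ := by
    intro m
    apply eq_inv_of_mul_eq_one_left
    rw [← pow_add, show m + 6 * m = 7 * m by ring, pow_mul, hy, one_pow]
  have hn2 : ∀ (m : ℕ), ∀ z ∈ K, y ^ m * z * (y ^ m)⁻¹ ∈ K := by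
    intro m z hz
    have := hn' (6 * m) z hz
    rwa [← hinv m, show y ^ (6 * m) = (y ^ m)⁻¹ by rw [hinv m, inv_inv]] at this
  let S : Subgroup G :=
    { carrier := {g | ∃ z ∈ K, ∃ m : ℕ, g = z * y ^ m}
      one_mem' := ⟨1, K.one_mem, 0, by simp⟩
      mul_mem' := by
        rintro g h ⟨z, hz, m, rfl⟩ ⟨z', hz', m', rfl⟩
        refine ⟨z * (y ^ m * z' * (y ^ m)⁻¹), K.mul_mem hz (hn2 m z' hz'), m + m', ?_⟩
        rw [pow_add]; group
      inv_mem' := by
        rintro g ⟨z, hz, m, rfl⟩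
        refine ⟨(y ^ m)⁻¹ * z⁻¹ * y ^ m, hn' m _ (K.inv_mem hz), 6 * m, ?_⟩
        rw [mul_inv_rev, show y ^ (6 * m) = (y ^ m)⁻¹ by rw [hinv m, inv_inv]]
        group }
  have hS : K ⊔ Subgroup.zpowers y = S := by
    apply le_antisymm
    · rw [sup_le_iff]
      constructor
      · intro z hz
        exact ⟨z, hz, 0, by simp⟩
      · rw [Subgroup.zpowers_le]
        exact ⟨1, K.one_mem, 1, by simp⟩
    · rintro g ⟨z, hz, m, rfl⟩
      exact Subgroup.mul_mem _ (Subgroup.mem_sup_left hz)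
        (Subgroup.mem_sup_right (Subgroup.pow_mem _ (Subgroup.mem_zpowers y) m))
  rw [hS]
  let f : K × Fin 7 → S := fun p => ⟨p.1 * y ^ (p.2 : ℕ), p.1, p.1.2, p.2, rfl⟩
  have hf : Function.Surjective f := by
    rintro ⟨g, z, hz, m, rfl⟩
    refine ⟨(⟨z, hz⟩, ⟨m % 7, Nat.mod_lt _ (by norm_num)⟩), ?_⟩
    apply Subtype.ext
    change z * y ^ (m % 7) = z * y ^ m
    rw [← pow_mod7 hy]
  refine ⟨Finite.of_surjective f hf, ?_⟩
  have := Nat.card_le_card_of_surjective f hf
  rwa [Nat.card_prod, Nat.card_fin, mul_comm] at this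

/-- commuting conjugates: the group is finite -/
theorem finite_of_comm (h7 : ∀ g : G, g ^ 7 = 1) {a x : G}
    (hc : ∀ m n, Commute (bb a x m) (bb a x n)) :
    Finite (Subgroup.closure {a, x}) ∧ Nat.card (Subgroup.closure {a, x}) ≤ 7 ^ 7 := by
  -- the subgroups generated by the first `n` conjugates
  let K : ℕ → Subgroup G := fun n => Nat.rec ⊥ (fun n K => K ⊔ Subgroup.zpowers (bb a x n)) n
  have hK0 : K 0 = ⊥ := rfl
  have hKs : ∀ n, K (n + 1) = K n ⊔ Subgroup.zpowers (bb a x n) := fun n => rfl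
  have hKc : ∀ n, ∀ z ∈ K n, ∀ m, Commute z (bb a x m) := by
    intro n
    induction n with
    | zero =>
      intro z hz m
      rw [hK0, Subgroup.mem_bot] at hz
      rw [hz]
      exact Commute.one_left _
    | succ n ih =>
      intro z hz m
      have h1 : K (n + 1) ≤ Subgroup.centralizer {bb a x m} := by
        rw [hKs, sup_le_iff]
        constructor
        · intro y hy
          rw [Subgroup.mem_centralizer_singleton_iff]
          exact (ih y hy m).eq
        · rw [Subgroup.zpowers_le, Subgroup.mem_centralizer_singleton_iff]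
          exact (hc n m).eq
      have h2 := h1 hz
      rw [Subgroup.mem_centralizer_singleton_iff] at h2
      exact h2
  have hKf : ∀ n, Finite ↥(K n) ∧ Nat.card ↥(K n) ≤ 7 ^ n := by
    intro n
    induction n with
    | zero =>
      rw [hK0]
      exact ⟨inferInstance, by simp⟩
    | succ n ih =>
      have := ext_finite ih.1 (h7 (bb a x n)) (fun z hz => by
        have h1 := (hKc n z hz n).eq
        have h2 : (bb a x n)⁻¹ * z * bb a x n = z := by
          rw [mul_assoc, h1, inv_mul_cancel_left]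
        rwa [h2])
      rw [hKs]
      refine ⟨this.1, this.2.trans ?_⟩
      rw [pow_succ, mul_comm]
      exact Nat.mul_le_mul_right _ ih.2
  have hmem : ∀ n, ∀ i < n, bb a x i ∈ K n := by
    intro n
    induction n with
    | zero => intro i hi; omega
    | succ n ih =>
      intro i hi
      rw [hKs]
      rcases Nat.lt_succ_iff_lt_or_eq.1 hi with h | h
      · exact Subgroup.mem_sup_left (ih i h)
      · rw [h]; exact Subgroup.mem_sup_right (Subgroup.mem_zpowers _)
  -- the product of the seven conjugates is one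
  have hprod : ev (el a x) (stepw 1 1 7) = 1 := by
    rw [ev_stepw x (h7 a), h7, h7, one_mul]
  have h6 : bb a x 6 ∈ K 6 := by
    have e : stepw 1 1 7 = stepw 1 1 6 ++ [2 * 6] := rfl
    rw [e, ev_append, ev, ev, el_even, mul_one] at hprod
    have h8 : ∀ n ≤ 6, ev (el a x) (stepw 1 1 n) ∈ K 6 := by
      intro n hn
      induction n with
      | zero => exact Subgroup.one_mem _
      | succ n ih =>
        rw [stepw, ev_append, List.replicate_one, ev, ev, el_even, mul_one]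
        refine Subgroup.mul_mem _ (ih (by omega)) (hmem 6 _ ?_)
        have : n * 1 % 7 = n := by omega
        omega
    have h9 : bb a x 6 = (ev (el a x) (stepw 1 1 6))⁻¹ := eq_inv_of_mul_eq_one_right hprod
    rw [h9]
    exact Subgroup.inv_mem _ (h8 6 le_rfl)
  have hmem' : ∀ i, i < 7 → bb a x i ∈ K 6 := by
    intro i hi
    rcases Nat.lt_succ_iff_lt_or_eq.1 hi with h | h
    · exact hmem 6 i h
    · rw [h]; exact h6
  -- `a` normalizes `K 6`
  have hKle : ∀ n ≤ 6, ∀ z ∈ K n, a⁻¹ * z * a ∈ K 6 := by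
    intro n
    induction n with
    | zero =>
      intro _ z hz
      rw [hK0, Subgroup.mem_bot] at hz
      rw [hz]
      simp
    | succ n ih =>
      intro hn z hz
      have h1 : K (n + 1) ≤ (K 6).comap (MulAut.conj a⁻¹).toMonoidHom := by
        rw [hKs, sup_le_iff]
        constructor
        · intro y hy
          rw [Subgroup.mem_comap]
          have := ih (by omega) y hy
          simpa using this
        · rw [Subgroup.zpowers_le, Subgroup.mem_comap]
          have h2 : a⁻¹ * bb a x n * a = bb a x (n + 1) := by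
            rw [bb_add, pow_one]
          have h3 := hmem' (n + 1) (by omega)
          rw [← h2] at h3
          simpa using h3
      have h2 := h1 hz
      rw [Subgroup.mem_comap] at h2
      simpa using h2
  have hfin := ext_finite (hKf 6).1 (h7 a) (hKle 6 le_rfl)
  have hle : Subgroup.closure {a, x} ≤ K 6 ⊔ Subgroup.zpowers a := by
    rw [Subgroup.closure_le]
    rintro y (rfl | rfl)
    · exact Subgroup.mem_sup_right (Subgroup.mem_zpowers _)
    · have := hmem 6 0 (by norm_num)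
      rw [bb_zero] at this
      exact Subgroup.mem_sup_left this
  have := hfin.1
  have hfin2 : Finite (Subgroup.closure {a, x}) :=
    Finite.of_injective _ (Subgroup.inclusion_injective hle)
  refine ⟨hfin2, ?_⟩
  have h1 := Nat.card_le_card_of_injective _ (Subgroup.inclusion_injective hle)
  refine h1.trans (hfin.2.trans ?_)
  have h2 := (hKf 6).2
  calc 7 * Nat.card ↥(K 6) ≤ 7 * 7 ^ 6 := Nat.mul_le_mul_left _ h2
    _ = 7 ^ 7 := by norm_num

/-- Part A -/
theorem partA (h7 : ∀ g : G, g ^ 7 = 1) (hd : ∀ a b : G, Dir a b) (a b : G) :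
    ∃ x y : G, Subgroup.closure {x, y} = Subgroup.closure {a, b} ∧
      (∀ k : ℕ, Commute x ((y ^ k)⁻¹ * x * y ^ k)) ∧
      Finite (Subgroup.closure {a, b}) ∧ Nat.card (Subgroup.closure {a, b}) ≤ 7 ^ 7 := by
  obtain ⟨a', x, h1, h2⟩ := first_step h7 (hd a b)
  have h3 := second_step h7 h2 (hd a' (pp a' x 0))
  have h4 := finite_of_comm h7 h3
  rw [h1] at h4
  refine ⟨x, a', ?_, fun k => ?_, h4.1, h4.2⟩
  · rw [Set.pair_comm, h1]
  · have := h3 0 k
    rw [bb_zero] at this
    exact this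

end

end BD7
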