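import Pool.Agent.Lib.MP_bd2ea4_al.Dir

/-!
# Elements commuting with conjugates in one direction; locally finite groups
-/

set_option autoImplicit false

namespace BD7

section

variable {G : Type*} [Group G]

/-- every `b` commutes with its conjugate by some power `a ^ k ≠ 1` of `a` -/
def Good (a : G) : Prop := ∀ b : G, ∃ k : ℕ, ¬ 7 ∣ k ∧ Commute b ((a ^ k)⁻¹ * b * a ^ k)

/-- all conjugates by powers of `a ^ k` commute, so all conjugates by powers of `a` -/
theorem bb_of_pow_left (h7 : ∀ g : G, g ^ 7 = 1) {a x : G} {k : ℕ} (hk : ¬ 7 ∣ k)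
    (h : ∀ m n, Commute (bb (a ^ k) x m) (bb (a ^ k) x n)) (m n : ℕ) :
    Commute (bb a x m) (bb a x n) := by
  obtain ⟨k', -, hk'⟩ := exists_inv7 h7 hk
  have e : ∀ m, bb a x m = bb (a ^ k) x (k' * m) := by
    intro m
    unfold bb
    rw [pow_mul, hk']
  rw [e m, e n]
  exact h _ _

theorem good_pow (h7 : ∀ g : G, g ^ 7 = 1) {a : G} (ha : Good a) {k : ℕ} (hk : ¬ 7 ∣ k) :
    Good (a ^ k) := by
  intro b
  obtain ⟨l, hl, h⟩ := ha b
  obtain ⟨k', hk7, hk'⟩ := exists_inv7 h7 hk
  refine ⟨k' * l, ?_, ?_⟩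
  · intro hd
    rcases (Nat.Prime.dvd_mul (by norm_num)).1 hd with h1 | h1
    · exact hk7 h1
    · exact hl h1
  · rwa [pow_mul, hk']

/-- a good element: all conjugates of every `b` by the powers of `a` commute -/
theorem good_all (h7 : ∀ g : G, g ^ 7 = 1) {a : G} (ha : Good a) (b : G) (m n : ℕ) :
    Commute (bb a b m) (bb a b n) := by
  obtain ⟨k, hk, h⟩ := ha b
  refine bb_of_pow_left h7 hk ?_ m n
  have hc : Commute (bb (a ^ k) b 0) (bb (a ^ k) b 1) := by
    unfold bb
    simpa using h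
  refine second_step h7 hc ?_
  obtain ⟨l, hl, h'⟩ := good_pow h7 ha hk (pp (a ^ k) b 0)
  refine ⟨0, 1, l, by norm_num, hl, Or.inl ?_⟩
  simpa using h'

theorem good_one (h7 : ∀ g : G, g ^ 7 = 1) {a : G} (ha : Good a) (b : G) :
    Commute b (a⁻¹ * b * a) := by
  have := good_all h7 ha b 0 1
  unfold bb at this
  simpa using this

/-- right 2-Engel elements commute with their conjugates -/
theorem conj_of_engel {a : G} (h : ∀ b : G, Commute b (a⁻¹ * b * a)) (g : G) :
    Commute a (g⁻¹ * a * g) := by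
  -- `d = [g, a]` commutes with `g` and with `a * g`
  have hd : ∀ b : G, Commute b (b⁻¹ * a⁻¹ * b * a) := by
    intro b
    have h1 : Commute b (b⁻¹ * (a⁻¹ * b * a)) := (Commute.refl b).inv_right.mul_right (h b)
    have e : b⁻¹ * (a⁻¹ * b * a) = b⁻¹ * a⁻¹ * b * a := by group
    rwa [e] at h1
  have h1 := hd g
  have h2 := hd (g * a)
  have h3 : Commute (a * g) (g⁻¹ * a⁻¹ * g * a) := by
    have e1 : (g * a)⁻¹ * a⁻¹ * (g * a) * a = a⁻¹ * (g⁻¹ * a⁻¹ * g * a) * a := by group
    rw [e1] at h2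
    unfold Commute SemiconjBy at *
    have h4 := congrArg (fun t => a * t * a⁻¹) h2
    calc a * g * (g⁻¹ * a⁻¹ * g * a)
        = a * (g * a * (a⁻¹ * (g⁻¹ * a⁻¹ * g * a) * a)) * a⁻¹ := by group
      _ = a * (a⁻¹ * (g⁻¹ * a⁻¹ * g * a) * a * (g * a)) * a⁻¹ := h4
      _ = _ := by group
  have h4 : Commute a (g⁻¹ * a⁻¹ * g * a) := by
    have h5 := h3.mul_left h1.inv_left
    rwa [mul_inv_cancel_right] at h5
  have h5 : Commute a (g⁻¹ * a⁻¹ * g) := by
    have h6 := h4.mul_right (Commute.refl a).inv_right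
    rwa [mul_inv_cancel_right] at h6
  have h6 := h5.inv_right
  have e : (g⁻¹ * a⁻¹ * g)⁻¹ = g⁻¹ * a * g := by group
  rwa [e] at h6

theorem conj_conj_of_engel {a : G} (h : ∀ b : G, Commute b (a⁻¹ * b * a)) (g k : G) :
    Commute (g⁻¹ * a * g) (k⁻¹ * a * k) := by
  have h1 := conj_of_engel h (k * g⁻¹)
  unfold Commute SemiconjBy at *
  calc g⁻¹ * a * g * (k⁻¹ * a * k)
      = g⁻¹ * (a * ((k * g⁻¹)⁻¹ * a * (k * g⁻¹))) * g := by group
    _ = g⁻¹ * ((k * g⁻¹)⁻¹ * a * (k * g⁻¹) * a) * g := by rw [h1]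
    _ = _ := by group

/-! ### local finiteness -/

/-- every finitely generated subgroup of `K` is finite -/
def LF (K : Subgroup G) : Prop := ∀ H : Subgroup G, H ≤ K → H.FG → Finite H

theorem LF_sup (h7 : ∀ g : G, g ^ 7 = 1) {K N : Subgroup G} [K.Normal] [N.Normal] (hK : LF K)
    (hN : ∀ x ∈ N, ∀ y ∈ N, Commute x y) : LF (K ⊔ N) := by
  intro H hH hfg
  have : Group.FG H := (Group.fg_iff_subgroup_fg H).2 hfg
  let f : H →* G ⧸ K := (QuotientGroup.mk' K).comp H.subtype
  -- the image is commutative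
  have himg : ∀ x : H, ∃ n ∈ N, f x = QuotientGroup.mk' K n := by
    intro x
    have hx : (x : G) ∈ K ⊔ N := hH x.2
    rw [Subgroup.mem_sup_of_normal_left] at hx
    obtain ⟨k, hk, n, hn, hkn⟩ := hx
    refine ⟨n, hn, ?_⟩
    change QuotientGroup.mk' K (x : G) = QuotientGroup.mk' K n
    rw [← hkn, map_mul]
    have : QuotientGroup.mk' K k = 1 := (QuotientGroup.eq_one_iff k).2 hk
    rw [this, one_mul]
  have hcomm : ∀ x y : f.range, x * y = y * x := by
    rintro ⟨_, x, rfl⟩ ⟨_, y, rfl⟩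
    apply Subtype.ext
    change f x * f y = f y * f x
    obtain ⟨n, hn, hx⟩ := himg x
    obtain ⟨n', hn', hy⟩ := himg y
    rw [hx, hy, ← map_mul, ← map_mul, (hN n hn n' hn').eq]
  let _ : CommGroup f.range := { (inferInstance : Group f.range) with mul_comm := hcomm }
  have : Group.FG f.range := Group.fg_range f
  have hfr : Finite f.range := by
    apply CommGroup.finite_of_fg_torsion
    rintro ⟨_, x, rfl⟩
    rw [isOfFinOrder_iff_pow_eq_one]
    refine ⟨7, by norm_num, ?_⟩
    apply Subtype.ext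
    change f x ^ 7 = 1
    rw [← map_pow, show x ^ 7 = 1 from Subtype.ext (h7 x), map_one]
  -- the kernel has finite index
  have hidx : f.ker.index ≠ 0 := by
    rw [Subgroup.index_ker]
    exact Nat.card_pos.ne'
  have hkfi : f.ker.FiniteIndex := ⟨hidx⟩
  have hkfg' : Group.FG f.ker := Subgroup.fg_of_index_ne_zero f.ker
  have hkfg : (f.ker.map H.subtype).FG := by
    rw [← Group.fg_iff_subgroup_fg]
    exact Group.fg_of_surjective (f := (Subgroup.equivMapOfInjective f.ker H.subtype
      H.subtype_injective).toMonoidHom) (Subgroup.equivMapOfInjective f.ker H.subtype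
      H.subtype_injective).surjective
  have hkK : (f.ker.map H.subtype) ≤ K := by
    rintro _ ⟨x, hx, rfl⟩
    have hx' : f x = 1 := hx
    exact (QuotientGroup.eq_one_iff (x : G)).1 hx'
  have hkfin : Finite (f.ker.map H.subtype) := hK _ hkK hkfg
  have hkfin' : Finite f.ker := by
    have := (Subgroup.equivMapOfInjective f.ker H.subtype H.subtype_injective).toEquiv
    exact Finite.of_equiv _ this.symm
  have hq : Finite (H ⧸ f.ker) := Subgroup.finite_quotient_of_finiteIndex
  exact Finite.of_equiv _ (Subgroup.groupEquivQuotientProdSubgroup (s := f.ker)).symm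

theorem LF_bot : LF (⊥ : Subgroup G) := by
  intro H hH _
  have : H = ⊥ := le_bot_iff.1 hH
  rw [this]
  infer_instance

theorem normalClosure_comm {a : G} (h : ∀ b : G, Commute b (a⁻¹ * b * a)) :
    ∀ x ∈ Subgroup.normalClosure {a}, ∀ y ∈ Subgroup.normalClosure {a}, Commute x y := by
  have h0 : ∀ s ∈ Group.conjugatesOfSet {a}, ∃ g : G, s = g⁻¹ * a * g := by
    intro s hs
    rw [Group.mem_conjugatesOfSet_iff] at hs
    obtain ⟨a', ha', hc⟩ := hs
    rw [Set.mem_singleton_iff] at ha'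
    subst ha'
    obtain ⟨c, hc⟩ := isConj_iff.1 hc
    exact ⟨c⁻¹, by rw [inv_inv]; exact hc.symm⟩
  intro x hx y hy
  unfold Subgroup.normalClosure at hx hy
  induction hx using Subgroup.closure_induction with
  | mem s hs =>
    obtain ⟨g, rfl⟩ := h0 s hs
    induction hy using Subgroup.closure_induction with
    | mem t ht =>
      obtain ⟨k, rfl⟩ := h0 t ht
      exact conj_conj_of_engel h g k
    | one => exact Commute.one_right _
    | mul u v _ _ hu hv => exact hu.mul_right hv
    | inv u _ hu => exact hu.inv_right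
  | one => exact Commute.one_left _
  | mul u v _ _ hu hv => exact hu.mul_left hv
  | inv u _ hu => exact hu.inv_left

theorem LF_finset (h7 : ∀ g : G, g ^ 7 = 1) (T : Finset G)
    (hT : ∀ a ∈ T, ∀ b : G, Commute b (a⁻¹ * b * a)) :
    ∃ K : Subgroup G, K.Normal ∧ LF K ∧ ∀ a ∈ T, a ∈ K := by
  classical
  induction T using Finset.induction_on with
  | empty => exact ⟨⊥, inferInstance, LF_bot, by simp⟩
  | insert a T _ ih =>
    obtain ⟨K, hKn, hK, hm⟩ := ih fun b hb => hT b (Finset.mem_insert_of_mem hb)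
    refine ⟨K ⊔ Subgroup.normalClosure {a}, inferInstance,
      LF_sup h7 hK (normalClosure_comm (hT a (Finset.mem_insert_self a T))), ?_⟩
    intro b hb
    rcases Finset.mem_insert.1 hb with rfl | hb
    · exact Subgroup.mem_sup_right (Subgroup.subset_normalClosure rfl)
    · exact Subgroup.mem_sup_left (hm b hb)

/-- generation by right 2-Engel elements -/
theorem locally_finite_of_engel (h7 : ∀ g : G, g ^ 7 = 1)
    (hgen : Subgroup.closure {a : G | ∀ b : G, Commute b (a⁻¹ * b * a)} = ⊤) (S : Finset G) :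
    Finite (Subgroup.closure (S : Set G)) := by
  classical
  -- every element is in the subgroup generated by a finite set of right 2-Engel elements
  have hfin : ∀ g : G, ∃ T : Finset G, (∀ a ∈ T, ∀ b : G, Commute b (a⁻¹ * b * a)) ∧
      g ∈ Subgroup.closure (T : Set G) := by
    intro g
    have hg : g ∈ Subgroup.closure {a : G | ∀ b : G, Commute b (a⁻¹ * b * a)} := by
      rw [hgen]; trivial
    induction hg using Subgroup.closure_induction with
    | mem s hs =>
      refine ⟨{s}, ?_, Subgroup.subset_closure (by simp)⟩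
      intro a ha
      rw [Finset.mem_singleton] at ha
      rw [ha]
      exact hs
    | one => exact ⟨∅, by simp, Subgroup.one_mem _⟩
    | mul u v _ _ hu hv =>
      obtain ⟨T, hT, hu⟩ := hu
      obtain ⟨T', hT', hv⟩ := hv
      refine ⟨T ∪ T', ?_, ?_⟩
      · intro a ha
        rcases Finset.mem_union.1 ha with h | h
        · exact hT a h
        · exact hT' a h
      · rw [Finset.coe_union]
        exact Subgroup.mul_mem _ (Subgroup.closure_mono Set.subset_union_left hu)
          (Subgroup.closure_mono Set.subset_union_right hv)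
    | inv u _ hu =>
      obtain ⟨T, hT, hu⟩ := hu
      exact ⟨T, hT, Subgroup.inv_mem _ hu⟩
  choose T hT hmem using hfin
  obtain ⟨K, -, hK, hm⟩ := LF_finset h7 (S.biUnion T) (by
    intro a ha
    obtain ⟨s, -, hs⟩ := Finset.mem_biUnion.1 ha
    exact hT s a hs)
  refine hK _ ?_ ⟨S, rfl⟩
  rw [Subgroup.closure_le]
  intro s hs
  have h1 : Subgroup.closure (T s : Set G) ≤ K := by
    rw [Subgroup.closure_le]
    intro a ha
    exact hm a (Finset.mem_biUnion.2 ⟨s, hs, ha⟩)
  exact h1 (hmem s)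

/-- Part B -/
theorem partB (h7 : ∀ g : G, g ^ 7 = 1) (a : G) (ha : Good a) :
    (∀ b : G, Commute b (a⁻¹ * b * a)) ∧ ∀ g k : G, Commute (g⁻¹ * a * g) (k⁻¹ * a * k) :=
  ⟨good_one h7 ha, conj_conj_of_engel (good_one h7 ha)⟩

theorem partB' (h7 : ∀ g : G, g ^ 7 = 1) (hgen : Subgroup.closure {a : G | Good a} = ⊤)
    (S : Finset G) : Finite (Subgroup.closure (S : Set G)) := by
  refine locally_finite_of_engel h7 ?_ S
  rw [eq_top_iff, ← hgen]
  exact Subgroup.closure_mono fun a ha => good_one h7 ha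

/-- Part C: the dichotomy for all pairs makes the group 2-Engel -/
theorem dich (h7 : ∀ g : G, g ^ 7 = 1)
    (hd : ∀ a b : G, ∃ k : ℕ, ¬ 7 ∣ k ∧
      (Commute a ((b ^ k)⁻¹ * a * b ^ k) ∨ Commute b ((a ^ k)⁻¹ * b * a ^ k))) (a b : G) :
    (∀ m n, Commute (bb a b m) (bb a b n)) ∨ ∀ m n, Commute (bb b a m) (bb b a n) := by
  have key : ∀ a b : G, ∀ k, ¬ 7 ∣ k → Commute b ((a ^ k)⁻¹ * b * a ^ k) →
      ∀ m n, Commute (bb a b m) (bb a b n) := by
    intro a b k hk h
    refine bb_of_pow_left h7 hk ?_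
    have hc : Commute (bb (a ^ k) b 0) (bb (a ^ k) b 1) := by
      unfold bb
      simpa using h
    refine second_step h7 hc ?_
    obtain ⟨l, hl, h' | h'⟩ := hd (a ^ k) (pp (a ^ k) b 0)
    · refine ⟨0, 1, l, by norm_num, hl, Or.inr ?_⟩
      simpa using h'
    · refine ⟨0, 1, l, by norm_num, hl, Or.inl ?_⟩
      simpa using h'
  obtain ⟨k, hk, h | h⟩ := hd a b
  · exact Or.inr (key b a k hk h)
  · exact Or.inl (key a b k hk h)

theorem partC (h7 : ∀ g : G, g ^ 7 = 1)
    (hd : ∀ a b : G, ∃ k : ℕ, ¬ 7 ∣ k ∧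
      (Commute a ((b ^ k)⁻¹ * a * b ^ k) ∨ Commute b ((a ^ k)⁻¹ * b * a ^ k))) (a b : G) :
    Commute b (a⁻¹ * b * a) := by
  have e1 : ∀ x y : G, bb x y 1 = x⁻¹ * y * x := by
    intro x y; unfold bb; rw [pow_one]
  rcases dich h7 hd a b with h | h
  · have := h 0 1
    rwa [bb_zero, e1] at this
  · -- all conjugates of `a` by powers of `b` commute
    rcases dich h7 hd (b * a) b with h' | h'
    · have h1 := h' 0 1
      rw [bb_zero, e1] at h1
      have e : (b * a)⁻¹ * b * (b * a) = a⁻¹ * b * a := by group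
      rwa [e] at h1
    · have h1 := h' 0 1
      rw [bb_zero, e1] at h1
      have e : b⁻¹ * (b * a) * b = a * b := by group
      rw [e] at h1
      -- `b a a b = a b b a`
      have h2 : b * a * (a * b) = a * b * (b * a) := h1.eq
      -- `c = a_1 a_0⁻¹` is fixed by `b`
      have h3 := (h 0 1).eq
      have h4 := (h 1 2).eq
      have h5 := (h 0 2).eq
      rw [bb_zero] at h3 h5
      have hb1 : bb b a 1 = b⁻¹ * a * b := e1 b a
      have hb2 : bb b a 2 = b⁻¹ * (b⁻¹ * a * b) * b := by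
        unfold bb; rw [pow_two]; group
      have h6 : bb b a 1 * bb b a 1 = bb b a 2 * a := by
        have e3 : b * a * (a * b) = b * b * (bb b a 1 * bb b a 1) := by
          rw [hb1]; group
        have e4 : a * b * (b * a) = b * b * (bb b a 2 * a) := by
          rw [hb2]; group
        rw [e3, e4] at h2
        exact mul_left_cancel h2
      -- so `b` commutes with `c`
      have h7' : Commute b (bb b a 1 * a⁻¹) := by
        have h8 : b⁻¹ * (bb b a 1 * a⁻¹) * b = bb b a 1 * a⁻¹ := by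
          have h9 : b⁻¹ * (bb b a 1 * a⁻¹) * b = bb b a 2 * (bb b a 1)⁻¹ := by
            rw [hb1, hb2]; group
          rw [h9, mul_inv_eq_iff_eq_mul, mul_assoc]
          have h10 : a⁻¹ * bb b a 1 = bb b a 1 * a⁻¹ := by
            rw [inv_mul_eq_iff_eq_mul, ← mul_assoc, h3, mul_inv_cancel_right]
          rw [h10, ← mul_assoc, h6, mul_inv_cancel_right]
        unfold Commute SemiconjBy
        calc b * (bb b a 1 * a⁻¹) = b * (b⁻¹ * (bb b a 1 * a⁻¹) * b) := by rw [h8]
          _ = _ := by group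
      have h8 : Commute b (a * b * a⁻¹) := by
        have h9 := (Commute.refl b).mul_right h7'
        have e5 : b * (bb b a 1 * a⁻¹) = a * b * a⁻¹ := by rw [hb1]; group
        rwa [e5] at h9
      unfold Commute SemiconjBy at *
      calc b * (a⁻¹ * b * a) = a⁻¹ * (a * b * a⁻¹ * b) * a := by group
        _ = a⁻¹ * (b * (a * b * a⁻¹)) * a := by rw [h8]
        _ = _ := by group

theorem partC' (h7 : ∀ g : G, g ^ 7 = 1)
    (hd : ∀ a b : G, ∃ k : ℕ, ¬ 7 ∣ k ∧
      (Commute a ((b ^ k)⁻¹ * a * b ^ k) ∨ Commute b ((a ^ k)⁻¹ * b * a ^ k))) (S : Finset G) :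
    Finite (Subgroup.closure (S : Set G)) := by
  refine locally_finite_of_engel h7 ?_ S
  rw [eq_top_iff]
  intro a _
  exact Subgroup.subset_closure fun b => partC h7 hd a b

end

end BD7
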